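import Mathlib

/-!
# Layered automata and the recursive languages
-/

namespace Pool.Agent.Helper84.SG

/-- Words in signed letters; a letter is a list of numbers. -/
abbrev CW : Type := List (List ℕ × Bool)

/-- Transitions: source, target and content. -/
abbrev Tr : Type := List ℕ × List ℕ × CW

/-- A layered automaton: the list of its layers. -/
abbrev Aut : Type := List (List Tr)

/-- The formal inverse of a word. -/
def cinv (w : CW) : CW := (w.map fun p => (p.1, !p.2)).reverse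

/-- `w` is the content of a path through all layers from `q` to `q'`. -/
def Acc : Aut → List ℕ → List ℕ → CW → Prop
  | [], q, q', w => q = q' ∧ w = []
  | l :: ls, q, q', w => ∃ q1 u v, (q, q1, u) ∈ l ∧ Acc ls q1 q' v ∧ w = u ++ v

lemma acc_nil {q q' : List ℕ} {w : CW} : Acc [] q q' w ↔ q = q' ∧ w = [] := Iff.rfl

lemma acc_cons {l : List Tr} {ls : Aut} {q q' : List ℕ} {w : CW} :
    Acc (l :: ls) q q' w ↔ ∃ q1 u v, (q, q1, u) ∈ l ∧ Acc ls q1 q' v ∧ w = u ++ v := Iff.rfl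

lemma acc_append {B₁ B₂ : Aut} : ∀ {q q' : List ℕ} {w : CW},
    Acc (B₁ ++ B₂) q q' w ↔ ∃ q1 u v, Acc B₁ q q1 u ∧ Acc B₂ q1 q' v ∧ w = u ++ v := by
  induction B₁ with
  | nil =>
    intro q q' w
    rw [List.nil_append]
    constructor
    · intro h; exact ⟨q, [], w, ⟨rfl, rfl⟩, h, rfl⟩
    · rintro ⟨q1, u, v, ⟨rfl, rfl⟩, h, rfl⟩; exact h
  | cons l ls ih =>
    intro q q' w
    rw [List.cons_append, acc_cons]
    constructor
    · rintro ⟨q1, u, v, h1, h2, rfl⟩
      obtain ⟨q2, u', v', h3, h4, rfl⟩ := ih.1 h2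
      exact ⟨q2, u ++ u', v', ⟨q1, u, u', h1, h3, rfl⟩, h4, by rw [List.append_assoc]⟩
    · rintro ⟨q2, u₀, v', ⟨q1, u, u', h1, h3, rfl⟩, h4, rfl⟩
      exact ⟨q1, u, u' ++ v', h1, ih.2 ⟨q2, u', v', h3, h4, rfl⟩, by rw [List.append_assoc]⟩

lemma acc_singleton {l : List Tr} {q q' : List ℕ} {w : CW} :
    Acc [l] q q' w ↔ (q, q', w) ∈ l := by
  rw [acc_cons]
  constructor
  · rintro ⟨q1, u, v, h1, ⟨rfl, rfl⟩, rfl⟩; simpa using h1
  · intro h; exact ⟨q', w, [], h, ⟨rfl, rfl⟩, by simp⟩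

lemma cinv_append (u v : CW) : cinv (u ++ v) = cinv v ++ cinv u := by
  simp [cinv]

lemma cinv_cinv (u : CW) : cinv (cinv u) = u := by
  simp [cinv, List.map_reverse, Function.comp_def]

/-- The reversed automaton. -/
def invAut (B : Aut) : Aut := (B.map fun l => l.map fun tr => (tr.2.1, tr.1, cinv tr.2.2)).reverse

lemma acc_invAut {B : Aut} : ∀ {q q' : List ℕ} {w : CW},
    Acc (invAut B) q q' w ↔ ∃ v, Acc B q' q v ∧ w = cinv v := by
  induction B with
  | nil =>
    intro q q' w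
    simp only [invAut, List.map_nil, List.reverse_nil, acc_nil]
    constructor
    · rintro ⟨rfl, rfl⟩; exact ⟨[], ⟨rfl, rfl⟩, rfl⟩
    · rintro ⟨v, ⟨rfl, rfl⟩, rfl⟩; exact ⟨rfl, rfl⟩
  | cons l ls ih =>
    intro q q' w
    have h1 : invAut (l :: ls) = invAut ls ++ [l.map fun tr => (tr.2.1, tr.1, cinv tr.2.2)] := by
      simp [invAut]
    rw [h1, acc_append]
    constructor
    · rintro ⟨q1, u, v, h2, h3, rfl⟩
      obtain ⟨u', h4, rfl⟩ := ih.1 h2
      rw [acc_singleton, List.mem_map] at h3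
      obtain ⟨tr, h5, h6⟩ := h3
      obtain ⟨rfl, rfl, rfl⟩ : tr.2.1 = q1 ∧ tr.1 = q' ∧ cinv tr.2.2 = v := by
        simpa [Prod.ext_iff] using h6
      exact ⟨tr.2.2 ++ u', ⟨tr.2.1, tr.2.2, u', h5, h4, rfl⟩, by rw [cinv_append]⟩
    · rintro ⟨v, ⟨q1, u, v', h2, h3, rfl⟩, rfl⟩
      refine ⟨q1, cinv v', cinv u, ih.2 ⟨v', h3, rfl⟩, ?_, by rw [cinv_append]⟩
      rw [acc_singleton, List.mem_map]
      exact ⟨(q', q1, u), h2, rfl⟩

/-- Renaming of the letters. -/
def ren (r i c : ℕ) (w : CW) : CW := w.map fun p => (r :: i :: c :: p.1, p.2)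

lemma ren_append (r i c : ℕ) (u v : CW) : ren r i c (u ++ v) = ren r i c u ++ ren r i c v := by
  simp [ren]

/-- The copies of the automaton, one for each control transition. -/
def mid (r i : ℕ) (Θ : List (ℕ × ℕ × ℕ)) (B : Aut) : Aut :=
  B.map fun l => Θ.flatMap fun θ => l.map fun tr =>
    (θ.1 :: θ.2.1 :: θ.2.2 :: tr.1, θ.1 :: θ.2.1 :: θ.2.2 :: tr.2.1, ren r i θ.2.1 tr.2.2)

lemma acc_mid {r i : ℕ} {Θ : List (ℕ × ℕ × ℕ)} {B : Aut} {θ : ℕ × ℕ × ℕ} :
    ∀ {q x : List ℕ} {w : CW}, Acc (mid r i Θ B) (θ.1 :: θ.2.1 :: θ.2.2 :: q) x w →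
      ∃ q' v, x = θ.1 :: θ.2.1 :: θ.2.2 :: q' ∧ Acc B q q' v ∧ w = ren r i θ.2.1 v := by
  induction B with
  | nil =>
    rintro q x w ⟨rfl, rfl⟩
    exact ⟨q, [], rfl, ⟨rfl, rfl⟩, rfl⟩
  | cons l ls ih =>
    rintro q x w ⟨q1, u, v, h1, h2, rfl⟩
    rw [List.mem_flatMap] at h1
    obtain ⟨θ', hθ', h1⟩ := h1
    rw [List.mem_map] at h1
    obtain ⟨tr, htr, h1⟩ := h1
    simp only [Prod.mk.injEq, List.cons.injEq] at h1
    obtain ⟨⟨e1, e2, e3, e4⟩, e5, e6⟩ := h1
    subst e4 e5 e6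
    rw [e1, e2, e3] at h2
    obtain ⟨q', v', h3, h4, rfl⟩ := ih h2
    refine ⟨q', tr.2.2 ++ v', h3, ⟨tr.2.1, tr.2.2, v', htr, h4, rfl⟩, ?_⟩
    rw [ren_append, e2]

lemma acc_mid_mk {r i : ℕ} {Θ : List (ℕ × ℕ × ℕ)} {B : Aut} {θ : ℕ × ℕ × ℕ} (hθ : θ ∈ Θ) :
    ∀ {q q' : List ℕ} {v : CW}, Acc B q q' v →
      Acc (mid r i Θ B) (θ.1 :: θ.2.1 :: θ.2.2 :: q) (θ.1 :: θ.2.1 :: θ.2.2 :: q')
        (ren r i θ.2.1 v) := by
  induction B with
  | nil =>
    rintro q q' v ⟨rfl, rfl⟩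
    exact ⟨rfl, rfl⟩
  | cons l ls ih =>
    rintro q q' v ⟨q1, u, v', h1, h2, rfl⟩
    refine ⟨θ.1 :: θ.2.1 :: θ.2.2 :: q1, ren r i θ.2.1 u, ren r i θ.2.1 v', ?_, ih h2,
      ren_append _ _ _ _ _⟩
    rw [List.mem_flatMap]
    refine ⟨θ, hθ, ?_⟩
    rw [List.mem_map]
    exact ⟨(q, q1, u), h1, rfl⟩

/-- One pass through the automaton under control. -/
def pass (r i : ℕ) (Θ : List (ℕ × ℕ × ℕ)) (B : Aut) : Aut :=
  (Θ.map fun θ => ([θ.1], θ.1 :: θ.2.1 :: θ.2.2 :: [0], ([] : CW))) ::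
    (mid r i Θ B ++ [Θ.map fun θ => (θ.1 :: θ.2.1 :: θ.2.2 :: [0], [θ.2.2], ([] : CW))])

lemma acc_pass {r i : ℕ} {Θ : List (ℕ × ℕ × ℕ)} {B : Aut} {q x : List ℕ} {w : CW} :
    Acc (pass r i Θ B) q x w ↔
      ∃ θ ∈ Θ, q = [θ.1] ∧ x = [θ.2.2] ∧ ∃ v, Acc B [0] [0] v ∧ w = ren r i θ.2.1 v := by
  unfold pass
  rw [acc_cons]
  constructor
  · rintro ⟨q1, u, v, h1, h2, rfl⟩
    rw [List.mem_map] at h1
    obtain ⟨θ, hθ, h1⟩ := h1
    simp only [Prod.mk.injEq] at h1
    obtain ⟨e1, e2, e3⟩ := h1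
    subst e1 e2 e3
    obtain ⟨q2, u', v', h3, h4, rfl⟩ := acc_append.1 h2
    obtain ⟨q', v'', rfl, h5, rfl⟩ := acc_mid h3
    rw [acc_singleton, List.mem_map] at h4
    obtain ⟨θ', hθ', h4⟩ := h4
    simp only [Prod.mk.injEq, List.cons.injEq] at h4
    obtain ⟨⟨e1, e2, e3, e4⟩, e5, e6⟩ := h4
    subst e4 e5 e6
    exact ⟨θ, hθ, rfl, by rw [e3], v'', h5, by simp⟩
  · rintro ⟨θ, hθ, rfl, rfl, v, h1, rfl⟩
    refine ⟨θ.1 :: θ.2.1 :: θ.2.2 :: [0], [], ren r i θ.2.1 v, List.mem_map.2 ⟨θ, hθ, rfl⟩,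
      acc_append.2 ⟨θ.1 :: θ.2.1 :: θ.2.2 :: [0], ren r i θ.2.1 v, [], acc_mid_mk hθ h1, ?_,
        by simp⟩, by simp⟩
    rw [acc_singleton, List.mem_map]
    exact ⟨θ, hθ, rfl⟩

lemma flatMap_range_congr {α : Type*} {n : ℕ} {f g : ℕ → List α} (h : ∀ j < n, f j = g j) :
    (List.range n).flatMap f = (List.range n).flatMap g := by
  rw [List.flatMap_def, List.flatMap_def]
  congr 1
  exact List.map_congr_left fun k hk => h k (List.mem_range.1 hk)

/-- Paths through a sequence of automata. -/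
lemma acc_flatMap {F : ℕ → Aut} {n : ℕ} : ∀ {q x : List ℕ} {w : CW},
    Acc ((List.range n).flatMap F) q x w ↔ ∃ (s : ℕ → List ℕ) (v : ℕ → CW), s 0 = q ∧ s n = x ∧
      (∀ j < n, Acc (F j) (s j) (s (j + 1)) (v j)) ∧ w = (List.range n).flatMap v := by
  induction n with
  | zero =>
    intro q x w
    constructor
    · rintro ⟨rfl, rfl⟩
      exact ⟨fun _ => q, fun _ => [], rfl, rfl, by simp, rfl⟩
    · rintro ⟨s, v, rfl, rfl, -, rfl⟩
      exact ⟨rfl, rfl⟩
  | succ n ih =>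
    intro q x w
    rw [List.range_succ, List.flatMap_append, List.flatMap_singleton, acc_append]
    constructor
    · rintro ⟨q1, u, v, h1, h2, rfl⟩
      obtain ⟨s, v', rfl, rfl, h3, rfl⟩ := ih.1 h1
      refine ⟨fun j => if j ≤ n then s j else x, fun j => if j < n then v' j else v, by simp,
        by simp, fun j hj => ?_, ?_⟩
      · rcases Nat.lt_succ_iff_lt_or_eq.1 hj with hj | rfl
        · have := h3 j hj
          simpa [hj.le, hj, Nat.succ_le_of_lt hj] using this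
        · simpa using h2
      · rw [List.flatMap_append, List.flatMap_singleton]
        congr 1
        · exact flatMap_range_congr fun j hj => by simp [hj]
        · simp
    · rintro ⟨s, v, rfl, rfl, h1, rfl⟩
      refine ⟨s n, (List.range n).flatMap v, v n,
        ih.2 ⟨s, v, rfl, rfl, fun j hj => h1 j (by omega), rfl⟩, h1 n (by omega), ?_⟩
      rw [List.flatMap_append, List.flatMap_singleton]

/-! ### The step -/

/-- The control of a row. -/
def thRow (A : ℕ → ℕ → Bool) (r i : ℕ) : List (ℕ × ℕ × ℕ) :=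
  [(0, 0, 0), (1, if A r i = true then 1 else 0, 1)]

/-- The control of a column. -/
def thCol (A : ℕ → ℕ → Bool) (r i : ℕ) : List (ℕ × ℕ × ℕ) :=
  (0, 0, 0) :: (1, 0, 1) :: (if A r i = true then [(0, 1, 1)] else [])

/-- The automaton of a row. -/
def row (m : ℕ) (A : ℕ → ℕ → Bool) (B : Aut) (r : ℕ) : Aut :=
  [([0], [0], []), ([0], [1], [])] ::
    (((List.range m).flatMap fun i => pass r i (thRow A r i) B) ++
      [[([0], [0], []), ([1], [0], [])]])

/-- The automaton of a column. -/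
def col (n : ℕ) (A : ℕ → ℕ → Bool) (B : Aut) (i : ℕ) : Aut :=
  ((List.range n).flatMap fun r => pass r i (thCol A r i) B) ++ [[([1], [0], [])]]

/-- The step. -/
def step (n m : ℕ) (A : ℕ → ℕ → Bool) (B : Aut) : Aut :=
  (List.range n).flatMap (row m A B) ++ (List.range m).flatMap (col n A (invAut B))

/-- The automata. -/
def autD (n m : ℕ) (A : ℕ → ℕ → Bool) : ℕ → Aut
  | 0 => [[([0], [0], [([], true)])]]
  | d + 1 => step n m A (autD n m A d)

lemma acc_row {m : ℕ} {A : ℕ → ℕ → Bool} {B : Aut} {r : ℕ} {q x : List ℕ} {w : CW} :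
    Acc (row m A B r) q x w → q = [0] ∧ x = [0] ∧ ∃ (b : Prop) (_ : Decidable b) (u : ℕ → CW),
      (∀ i < m, Acc B [0] [0] (u i)) ∧
      w = (List.range m).flatMap fun i => ren r i (if b ∧ A r i = true then 1 else 0) (u i) := by
  unfold row
  rw [acc_cons]
  rintro ⟨q1, u₀, v₀, h1, h2, rfl⟩
  obtain ⟨q2, u₁, v₁, h3, h4, rfl⟩ := acc_append.1 h2
  rw [acc_singleton] at h4
  obtain ⟨s, v, rfl, rfl, h5, rfl⟩ := acc_flatMap.1 h3
  have hc : ∀ k : ℕ, s 0 = [k] → ∀ j ≤ m, s j = [k] := by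
    intro k hk j
    induction j with
    | zero => intro _; exact hk
    | succ j ih =>
      intro hj
      have h6 := ih (by omega)
      obtain ⟨θ, hθ, h7, h8, -⟩ := acc_pass.1 (h5 j (by omega))
      rw [h6] at h7
      rw [h8]
      simp only [thRow, List.mem_cons, List.not_mem_nil, or_false] at hθ
      rcases hθ with rfl | rfl
      · simpa using h7.symm
      · simpa using h7.symm
  simp only [List.mem_cons, Prod.mk.injEq, List.not_mem_nil, or_false] at h1 h4
  rcases h1 with ⟨rfl, h1, rfl⟩ | ⟨rfl, h1, rfl⟩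
  · have h6 := hc 0 h1
    have h7 := h6 m le_rfl
    have hx : x = [0] ∧ v₁ = [] := by
      rw [h7] at h4
      simpa using h4
    obtain ⟨rfl, rfl⟩ := hx
    refine ⟨rfl, rfl, False, inferInstance, ?_⟩
    have h8 : ∀ j, ∃ u', j < m → Acc B [0] [0] u' ∧ v j = ren r j 0 u' := by
      intro j
      by_cases hj : j < m
      · obtain ⟨θ, hθ, h9, h10, u', h11, h12⟩ := acc_pass.1 (h5 j hj)
        rw [h6 j hj.le] at h9
        refine ⟨u', fun _ => ⟨h11, ?_⟩⟩
        simp only [thRow, List.mem_cons, List.not_mem_nil, or_false] at hθ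
        rcases hθ with rfl | rfl
        · exact h12
        · simp at h9
      · exact ⟨[], fun h => absurd h hj⟩
    choose u hu using h8
    refine ⟨u, fun i hi => (hu i hi).1, ?_⟩
    rw [List.nil_append, List.append_nil]
    refine flatMap_range_congr fun j hj => ?_
    rw [(hu j hj).2]
    simp
  · have h6 := hc 1 h1
    have h7 := h6 m le_rfl
    have hx : x = [0] ∧ v₁ = [] := by
      rw [h7] at h4
      simpa using h4
    obtain ⟨rfl, rfl⟩ := hx
    refine ⟨rfl, rfl, True, inferInstance, ?_⟩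
    have h8 : ∀ j, ∃ u', j < m → Acc B [0] [0] u' ∧
        v j = ren r j (if A r j = true then 1 else 0) u' := by
      intro j
      by_cases hj : j < m
      · obtain ⟨θ, hθ, h9, h10, u', h11, h12⟩ := acc_pass.1 (h5 j hj)
        rw [h6 j hj.le] at h9
        refine ⟨u', fun _ => ⟨h11, ?_⟩⟩
        simp only [thRow, List.mem_cons, List.not_mem_nil, or_false] at hθ
        rcases hθ with rfl | rfl
        · simp at h9
        · exact h12
      · exact ⟨[], fun h => absurd h hj⟩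
    choose u hu using h8
    refine ⟨u, fun i hi => (hu i hi).1, ?_⟩
    rw [List.nil_append, List.append_nil]
    refine flatMap_range_congr fun j hj => ?_
    rw [(hu j hj).2]
    simp

lemma acc_row_mk {m : ℕ} {A : ℕ → ℕ → Bool} {B : Aut} {r : ℕ} (b : Prop) [Decidable b]
    {u : ℕ → CW} (hu : ∀ i < m, Acc B [0] [0] (u i)) :
    Acc (row m A B r) [0] [0]
      ((List.range m).flatMap fun i => ren r i (if b ∧ A r i = true then 1 else 0) (u i)) := by
  unfold row
  rw [acc_cons]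
  have key : ∀ k : ℕ, (k = 1 ↔ b) → k = 0 ∨ k = 1 →
      Acc ((List.range m).flatMap fun i => pass r i (thRow A r i) B) [k] [k]
        ((List.range m).flatMap fun i => ren r i (if b ∧ A r i = true then 1 else 0) (u i)) := by
    intro k hk hk'
    refine acc_flatMap.2 ⟨fun _ => [k], _, rfl, rfl, fun j hj => ?_, rfl⟩
    rw [acc_pass]
    rcases hk' with rfl | rfl
    · refine ⟨(0, 0, 0), by simp [thRow], rfl, rfl, u j, hu j hj, ?_⟩
      have : ¬ b := fun h => by have := hk.2 h; omega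
      simp [this]
    · refine ⟨(1, if A r j = true then 1 else 0, 1), by simp [thRow], rfl, rfl, u j, hu j hj, ?_⟩
      have : b := hk.1 rfl
      simp [this]
  by_cases hb : b
  · refine ⟨[1], [], _, by simp, acc_append.2 ⟨[1], _, [], key 1 (by simp [hb]) (Or.inr rfl), ?_,
      by rw [List.append_nil]⟩, by rw [List.nil_append]⟩
    rw [acc_singleton]; simp
  · refine ⟨[0], [], _, by simp, acc_append.2 ⟨[0], _, [], key 0 (by simp [hb]) (Or.inl rfl), ?_,
      by rw [List.append_nil]⟩, by rw [List.nil_append]⟩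
    rw [acc_singleton]; simp

lemma acc_col {n : ℕ} {A : ℕ → ℕ → Bool} {B : Aut} {i : ℕ} {q x : List ℕ} {w : CW} (hq : q = [0]) :
    Acc (col n A B i) q x w → x = [0] ∧ ∃ (c : ℕ → ℕ) (u : ℕ → CW),
      (∀ r < n, c r = 0 ∨ c r = 1 ∧ A r i = true) ∧ ∑ r ∈ Finset.range n, c r = 1 ∧
      (∀ r < n, Acc B [0] [0] (u r)) ∧
      w = (List.range n).flatMap fun r => ren r i (c r) (u r) := by
  unfold col
  intro h
  obtain ⟨q2, u₁, v₁, h3, h4, rfl⟩ := acc_append.1 h
  rw [acc_singleton] at h4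
  simp only [List.mem_singleton, Prod.mk.injEq] at h4
  obtain ⟨rfl, rfl, rfl⟩ := h4
  obtain ⟨s, v, h0, h1, h5, rfl⟩ := acc_flatMap.1 h3
  rw [hq] at h0
  have h8 : ∀ j, ∃ (c : ℕ) (u' : CW), j < n → (c = 0 ∨ c = 1 ∧ A j i = true) ∧
      (∀ k, s j = [k] → s (j + 1) = [k + c]) ∧ Acc B [0] [0] u' ∧ v j = ren j i c u' := by
    intro j
    by_cases hj : j < n
    · obtain ⟨θ, hθ, h9, h10, u', h11, h12⟩ := acc_pass.1 (h5 j hj)
      refine ⟨θ.2.1, u', fun _ => ⟨?_, ?_, h11, h12⟩⟩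
      · simp only [thCol, List.mem_cons] at hθ
        rcases hθ with rfl | rfl | hθ
        · exact Or.inl rfl
        · exact Or.inl rfl
        · split_ifs at hθ with hA
          · rw [List.mem_singleton] at hθ
            subst hθ
            exact Or.inr ⟨rfl, hA⟩
          · simp at hθ
      · intro k hk
        rw [hk] at h9
        rw [h10]
        have h9' : k = θ.1 := by simpa using h9
        subst h9'
        simp only [thCol, List.mem_cons] at hθ
        rcases hθ with rfl | rfl | hθ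
        · rfl
        · rfl
        · split_ifs at hθ with hA
          · rw [List.mem_singleton] at hθ
            subst hθ
            rfl
          · simp at hθ
    · exact ⟨0, [], fun h => absurd h hj⟩
  choose c u hu using h8
  have h9 : ∀ j ≤ n, s j = [∑ r ∈ Finset.range j, c r] := by
    intro j
    induction j with
    | zero => intro _; simpa using h0
    | succ j ih =>
      intro hj
      rw [Finset.sum_range_succ]
      exact (hu j (by omega)).2.1 _ (ih (by omega))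
  have h10 := h9 n le_rfl
  rw [h1] at h10
  refine ⟨rfl, c, u, fun r hr => (hu r hr).1, by simpa using h10.symm,
    fun r hr => (hu r hr).2.2.1, ?_⟩
  rw [List.append_nil]
  exact flatMap_range_congr fun j hj => (hu j hj).2.2.2

lemma acc_col_mk {n : ℕ} {A : ℕ → ℕ → Bool} {B : Aut} {i r₀ : ℕ} (hr₀ : r₀ < n)
    (hA : A r₀ i = true) {c : ℕ → ℕ} (hc : ∀ r < n, c r = if r = r₀ then 1 else 0)
    {u : ℕ → CW} (hu : ∀ r < n, Acc B [0] [0] (u r)) :
    Acc (col n A B i) [0] [0] ((List.range n).flatMap fun r => ren r i (c r) (u r)) := by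
  unfold col
  refine acc_append.2 ⟨[1], _, [], ?_, ?_, by rw [List.append_nil]⟩
  · refine acc_flatMap.2 ⟨fun j => [if r₀ < j then 1 else 0], _, by simp, by simp [hr₀],
      fun j hj => ?_, rfl⟩
    rw [acc_pass]
    rcases lt_trichotomy r₀ j with h | h | h
    · refine ⟨(1, 0, 1), by simp [thCol], by simp [h], by simp; omega, u j, hu j hj, ?_⟩
      rw [hc j hj]; simp [h.ne']
    · subst h
      refine ⟨(0, 1, 1), by simp [thCol, hA], by simp, by simp, u r₀, hu r₀ hj, ?_⟩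
      rw [hc r₀ hj]; simp
    · refine ⟨(0, 0, 0), by simp [thCol], by simp; omega, by simp; omega, u j, hu j hj, ?_⟩
      rw [hc j hj]; simp [h.ne]
  · rw [acc_singleton]; simp

end Pool.Agent.Helper84.SG
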