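import Pool.Agent.Helper84.SG.Sel
import Pool.Agent.Helper87.SSP2.Pairs

/-!
# The gadget in the group
-/

namespace Pool.Agent.Helper84.SG

open Polynomial Pool.Agent.Helper87.SSP2

section poly

variable (idx : List ℕ → ℕ) (M e : ℕ)

/-- The polynomial of a word. -/
noncomputable def pol (w : CW) : ℤ[X] :=
  (w.map fun p => (if p.2 = true then (1 : ℤ[X]) else -1) * X ^ (M * idx p.1 + e)).sum

lemma pol_nil : pol idx M e [] = 0 := rfl

lemma pol_cons (p : List ℕ × Bool) (w : CW) : pol idx M e (p :: w) =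
    (if p.2 = true then (1 : ℤ[X]) else -1) * X ^ (M * idx p.1 + e) + pol idx M e w := by
  simp [pol]

lemma abs_coeff_pol (w : CW) (i : ℕ) : |(pol idx M e w).coeff i| ≤ w.length := by
  induction w with
  | nil => simp [pol]
  | cons p w ih =>
    rw [pol_cons, coeff_add, List.length_cons]
    have h1 : |((if p.2 = true then (1 : ℤ[X]) else -1) * X ^ (M * idx p.1 + e)).coeff i| ≤ 1 := by
      split_ifs
      · rw [one_mul, coeff_X_pow]; split_ifs <;> simp
      · rw [neg_one_mul, coeff_neg, coeff_X_pow]; split_ifs <;> simp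
    have h2 := abs_add_le (((if p.2 = true then (1 : ℤ[X]) else -1) *
      X ^ (M * idx p.1 + e)).coeff i) ((pol idx M e w).coeff i)
    push_cast
    linarith

variable {idx M e}

lemma index_eq {a b e₁ e₂ : ℕ} (h1 : e₁ < M) (h2 : e₂ < M) (h : M * a + e₁ = M * b + e₂) :
    a = b ∧ e₁ = e₂ := by
  have h3 := congrArg (· / M) h
  have h4 := congrArg (· % M) h
  simp only [Nat.mul_add_div (by omega : 0 < M), Nat.mul_add_mod, Nat.div_eq_of_lt h1,
    Nat.div_eq_of_lt h2, Nat.mod_eq_of_lt h1, Nat.mod_eq_of_lt h2, add_zero] at h3 h4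
  exact ⟨h3, h4⟩

lemma coeff_pol {U : List (List ℕ)} (hinj : ∀ x ∈ U, ∀ y ∈ U, idx x = idx y → x = y)
    {e₀ : ℕ} (he : e < M) (he₀ : e₀ < M) {x : List ℕ} (hx : x ∈ U) (w : CW)
    (hw : ∀ p ∈ w, p.1 ∈ U) :
    (pol idx M e w).coeff (M * idx x + e₀) = if e = e₀ then cnt x w else 0 := by
  induction w with
  | nil => simp [pol, cnt]
  | cons p w ih =>
    rw [pol_cons, coeff_add, ih fun q hq => hw q (List.mem_cons_of_mem _ hq), cnt_cons]
    have h1 : ((if p.2 = true then (1 : ℤ[X]) else -1) * X ^ (M * idx p.1 + e)).coeff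
        (M * idx x + e₀) = if e = e₀ then (if p.1 = x then
          (if p.2 = true then (1 : ℤ) else -1) else 0) else 0 := by
      have h2 : (X ^ (M * idx p.1 + e) : ℤ[X]).coeff (M * idx x + e₀) =
          if e = e₀ ∧ p.1 = x then 1 else 0 := by
        rw [coeff_X_pow]
        by_cases h3 : e = e₀ ∧ p.1 = x
        · obtain ⟨rfl, rfl⟩ := h3
          simp
        · rw [if_neg h3, if_neg]
          intro h4
          obtain ⟨h5, h6⟩ := index_eq he₀ he h4
          exact h3 ⟨h6.symm, hinj _ (hw p List.mem_cons_self) _ hx h5.symm⟩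
      by_cases hp : p.2 = true
      · rw [if_pos hp, one_mul, h2]
        by_cases h5 : e = e₀ <;> by_cases h6 : p.1 = x <;> simp [h5, h6, hp]
      · rw [if_neg hp, neg_one_mul, coeff_neg, h2]
        by_cases h5 : e = e₀ <;> by_cases h6 : p.1 = x <;> simp [h5, h6, hp]
    rw [h1]
    split_ifs <;> simp

end poly

variable {G : Type*} [Group G]

/-- The linear map of a family of cells. -/
noncomputable def Phi (N : Subgroup G) (t b : G) (L : ℕ) : ℤ[X] →ₗ[ℤ] AbS N :=
  Polynomial.lsum fun p => LinearMap.toSpanSingleton ℤ (AbS N) (cls N (DD t b (L * p)))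

lemma Phi_X_pow (N : Subgroup G) (t b : G) (L p : ℕ) :
    Phi N t b L (X ^ p) = cls N (DD t b (L * p)) := by
  unfold Phi
  rw [Polynomial.lsum_apply, X_pow_eq_monomial, Polynomial.sum_monomial_index]
  · simp
  · simp

/-- A family of cells that is independent in the abelianization. -/
structure Ind (N : Subgroup G) (t b : G) (k κ : ℕ) : Prop where
  hk : k ≠ 1
  hκ : 1 ≤ κ
  memb : b ∈ N
  norm : ∀ x ∈ N, t * x * t⁻¹ ∈ N
  tpow : ∀ p : ℕ, t ^ p ∈ N → p = 0
  ind : ∀ B L : ℕ, κ * (B + 1) ≤ L → ∀ Q : ℤ[X], (∀ i, |Q.coeff i| ≤ (B : ℤ)) →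
    Phi N t b L Q = 0 → ∀ i, (k : ℤ) ∣ Q.coeff i

lemma Ind.norm_pow {N : Subgroup G} {t b : G} {k κ : ℕ} (h : Ind N t b k κ) (p : ℕ) {x : G}
    (hx : x ∈ N) : t ^ p * x * (t ^ p)⁻¹ ∈ N := by
  induction p with
  | zero => simpa using hx
  | succ p ih =>
    have := h.norm _ ih
    rw [pow_succ']
    convert this using 1
    group

lemma Ind.DD_mem {N : Subgroup G} {t b : G} {k κ : ℕ} (h : Ind N t b k κ) (p : ℕ) :
    DD t b p ∈ N := h.norm_pow p h.memb

lemma conj_DD (t b : G) (L p e : ℕ) :
    (t ^ L) ^ e * DD t b (L * p) * ((t ^ L) ^ e)⁻¹ = DD t b (L * (p + e)) := by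
  unfold DD
  rw [← pow_mul, Nat.mul_add, Nat.add_comm (L * p), pow_add, mul_inv_rev]
  group

lemma conj_val (g : G) (E : List ℕ → G) (w : CW) :
    g * val E w * g⁻¹ = val (fun x => g * E x * g⁻¹) w := by
  induction w with
  | nil => simp [val]
  | cons p w ih =>
    rw [val_cons, val_cons, ← ih]
    split_ifs <;> group

/-- The cell of a letter. -/
def cell (idx : List ℕ → ℕ) (t b : G) (L M : ℕ) (x : List ℕ) : G := DD t b (L * (M * idx x))

lemma cls_val {N : Subgroup G} {t b : G} {k κ : ℕ} (h : Ind N t b k κ) (idx : List ℕ → ℕ)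
    (L M e : ℕ) (w : CW) :
    ((t ^ L) ^ e * val (cell idx t b L M) w * ((t ^ L) ^ e)⁻¹) ∈ N ∧
    cls N ((t ^ L) ^ e * val (cell idx t b L M) w * ((t ^ L) ^ e)⁻¹) =
      Phi N t b L (pol idx M e w) := by
  rw [conj_val]
  induction w with
  | nil => simp [val, pol, cls_one, one_mem]
  | cons p w ih =>
    rw [val_cons, pol_cons]
    have h1 : (t ^ L) ^ e * cell idx t b L M p.1 * ((t ^ L) ^ e)⁻¹ =
      DD t b (L * (M * idx p.1 + e)) := conj_DD t b L _ e
    rw [h1]
    have h2 := h.DD_mem (L * (M * idx p.1 + e))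
    split_ifs
    · refine ⟨mul_mem h2 ih.1, ?_⟩
      rw [cls_mul N h2 ih.1, ih.2, map_add, one_mul, Phi_X_pow]
    · refine ⟨mul_mem (inv_mem h2) ih.1, ?_⟩
      rw [cls_mul N (inv_mem h2) ih.1, ih.2, map_add, neg_one_mul, map_neg, Phi_X_pow, cls_inv]

/-- The element of an item. -/
def gel (idx : List ℕ → ℕ) (t b : G) (L M : ℕ) (x : ℕ × Tr) : G :=
  ((t ^ L) ^ x.1)⁻¹ * val (cell idx t b L M) (body x.1 x.2) * (t ^ L) ^ (x.1 + 1)

lemma telescope (idx : List ℕ → ℕ) (t b : G) (L M J n : ℕ) (js : ℕ → ℕ) (trs : ℕ → Tr)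
    (h : ∀ s < n, js s ≤ s + J) :
    (t ^ L) ^ J * ((List.range n).map fun s => gel idx t b L M (js s, trs s)).prod =
      ((List.range n).map fun s => (t ^ L) ^ (s + J - js s) *
        val (cell idx t b L M) (body (js s) (trs s)) * ((t ^ L) ^ (s + J - js s))⁻¹).prod *
        (t ^ L) ^ (J + n) := by
  induction n with
  | zero => simp
  | succ n ih =>
    rw [List.range_succ, List.map_append, List.map_append, List.prod_append, List.prod_append,
      ← mul_assoc, ih fun s hs => h s (by omega)]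
    simp only [List.map_cons, List.map_nil, List.prod_cons, List.prod_nil, mul_one]
    have h1 := h n (by omega)
    have h2 : (t ^ L) ^ (J + n) = (t ^ L) ^ (n + J - js n) * (t ^ L) ^ js n := by
      rw [← pow_add]; congr 1; omega
    have h3 : (t ^ L) ^ (J + (n + 1)) = (t ^ L) ^ (n + J - js n) * (t ^ L) ^ (js n + 1) := by
      rw [← pow_add]; congr 1; omega
    rw [h2, h3, gel]
    simp only
    group

/-- **Soundness of the gadget.** -/
theorem sound {N : Subgroup G} {t b : G} {k κ : ℕ} (h : Ind N t b k κ) {B : Aut}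
    {idx : List ℕ → ℕ} {L M n Bd : ℕ} {U : List (List ℕ)} (js : ℕ → ℕ) (trs : ℕ → Tr)
    (hmem : ∀ s < n, js s < B.length ∧ trs s ∈ lay B (js s))
    (hU : ∀ s < n, ∀ p ∈ body (js s) (trs s), p.1 ∈ U) (hU0 : [0, 0, 0] ∈ U)
    (hUJ : [0, B.length, 0] ∈ U) (hinj : ∀ x ∈ U, ∀ y ∈ U, idx x = idx y → x = y)
    (hM : 2 * B.length + 1 ≤ M) (hL : κ * (Bd + 1) ≤ L)
    (hBd : (∑ s ∈ Finset.range n, (body (js s) (trs s)).length) + 2 ≤ Bd)
    (hprod : ((List.range n).map fun s => gel idx t b L M (js s, trs s)).prod =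
      (cell idx t b L M [0, 0, 0])⁻¹ * cell idx t b L M [0, B.length, 0] *
        (t ^ L) ^ B.length) :
    ∃ w, Acc B [0] [0] w ∧ Bal k w := by
  set J := B.length with hJ
  have hL1 : 1 ≤ L := by
    have h1 := h.hκ
    have h2 : 1 * (Bd + 1) ≤ κ * (Bd + 1) := Nat.mul_le_mul_right _ h1
    omega
  have h1 := telescope idx t b L M J n js trs fun s hs => by have := (hmem s hs).1; omega
  set R := ((List.range n).map fun s => (t ^ L) ^ (s + J - js s) *
        val (cell idx t b L M) (body (js s) (trs s)) * ((t ^ L) ^ (s + J - js s))⁻¹).prod with hR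
  have hRN : R ∈ N := prod_range_mem fun s _ => (cls_val h idx L M _ _).1
  set w₀ : CW := [([0, 0, 0], false), ([0, J, 0], true)] with hw₀
  have hval0 : val (cell idx t b L M) w₀ =
      (cell idx t b L M [0, 0, 0])⁻¹ * cell idx t b L M [0, J, 0] := by
    simp [hw₀, val]
  obtain ⟨h3, h4⟩ := cls_val h idx L M J w₀
  set R' := (t ^ L) ^ J * val (cell idx t b L M) w₀ * ((t ^ L) ^ J)⁻¹ with hR'
  rw [hprod, ← hval0] at h1
  have h5 : R * (t ^ L) ^ (J + n) = R' * (t ^ L) ^ (J + J) := by
    rw [← h1, hR', pow_add]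
    group
  have h6 : n = J := by
    have h7 : R'⁻¹ * R = (t ^ L) ^ (J + J) * ((t ^ L) ^ (J + n))⁻¹ := by
      rw [eq_mul_inv_iff_mul_eq, mul_assoc, h5]
      group
    have h8 : R'⁻¹ * R ∈ N := mul_mem (inv_mem h3) hRN
    rcases le_total n J with hn | hn
    · have h9 : (t ^ L) ^ (J + J) * ((t ^ L) ^ (J + n))⁻¹ = t ^ (L * (J - n)) := by
        rw [mul_inv_eq_iff_eq_mul, ← pow_mul, ← pow_mul, ← pow_add]
        congr 1
        rw [← Nat.mul_add]; congr 1; omega
      rw [h7, h9] at h8
      have h10 := h.tpow _ h8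
      rcases Nat.mul_eq_zero.1 h10 with h11 | h11 <;> omega
    · have h9 : (t ^ L) ^ (J + J) * ((t ^ L) ^ (J + n))⁻¹ = (t ^ (L * (n - J)))⁻¹ := by
        rw [mul_inv_eq_iff_eq_mul, ← pow_mul, ← pow_mul, eq_inv_mul_iff_mul_eq, ← pow_add]
        congr 1
        rw [← Nat.mul_add]; congr 1; omega
      rw [h7, h9, inv_mem_iff] at h8
      have h10 := h.tpow _ h8
      rcases Nat.mul_eq_zero.1 h10 with h11 | h11 <;> omega
  have h7 : R = R' := by
    rw [h6] at h5
    exact mul_right_cancel h5
  have h8 : cls N R = ∑ s ∈ Finset.range n,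
      Phi N t b L (pol idx M (s + J - js s) (body (js s) (trs s))) := by
    rw [hR, cls_prod_range fun s _ => (cls_val h idx L M _ _).1]
    exact Finset.sum_congr rfl fun s _ => (cls_val h idx L M _ _).2
  rw [h7, h4, ← map_sum] at h8
  set Q := (∑ s ∈ Finset.range n, pol idx M (s + J - js s) (body (js s) (trs s))) -
    pol idx M J w₀ with hQ
  have h9 : Phi N t b L Q = 0 := by rw [hQ, map_sub, ← h8, sub_self]
  have h10 : ∀ i, |Q.coeff i| ≤ (Bd : ℤ) := by
    intro i
    rw [hQ, coeff_sub, finsetSum_coeff]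
    have h11 := abs_sub (∑ s ∈ Finset.range n,
      (pol idx M (s + J - js s) (body (js s) (trs s))).coeff i) ((pol idx M J w₀).coeff i)
    have h12 : |∑ s ∈ Finset.range n,
        (pol idx M (s + J - js s) (body (js s) (trs s))).coeff i| ≤
        ∑ s ∈ Finset.range n, ((body (js s) (trs s)).length : ℤ) :=
      (Finset.abs_sum_le_sum_abs _ _).trans
        (Finset.sum_le_sum fun s _ => abs_coeff_pol idx M _ _ i)
    have h13 := abs_coeff_pol idx M J w₀ i
    have h14 : (w₀.length : ℤ) = 2 := by rw [hw₀]; rfl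
    have h15 : ((∑ s ∈ Finset.range n, (body (js s) (trs s)).length : ℕ) : ℤ) + 2 ≤ Bd := by
      exact_mod_cast hBd
    push_cast at h15
    linarith
  have h11 := h.ind Bd L hL Q h10 h9
  subst h6
  refine acc_of_sel h.hk js trs hmem fun x e => ?_
  by_cases hx : x ∈ U ∧ e < M
  · have h12 := h11 (M * idx x + e)
    rw [hQ, coeff_sub, finsetSum_coeff] at h12
    have h13 : ∑ s ∈ Finset.range B.length,
        (pol idx M (s + B.length - js s) (body (js s) (trs s))).coeff (M * idx x + e) =
        ∑ s ∈ Finset.range B.length, if s + B.length - js s = e then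
          cnt x (body (js s) (trs s)) else 0 := by
      refine Finset.sum_congr rfl fun s hs => ?_
      have hs' := Finset.mem_range.1 hs
      rw [coeff_pol hinj (by omega) hx.2 hx.1 _ (hU s hs')]
    have h14 : (pol idx M B.length w₀).coeff (M * idx x + e) =
        (if x = [0, B.length, 0] ∧ e = B.length then 1 else 0) -
        (if x = [0, 0, 0] ∧ e = B.length then 1 else 0) := by
      rw [coeff_pol hinj (by omega) hx.2 hx.1 _ (by
        intro p hp
        simp only [hw₀, List.mem_cons, List.not_mem_nil, or_false] at hp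
        rcases hp with rfl | rfl
        · exact hU0
        · exact hUJ)]
      by_cases he : B.length = e
      · subst he
        simp only [if_true, and_true, hw₀, cnt_cons, cnt_nil, Bool.false_eq_true, if_false,
          add_zero, eq_comm (a := x)]
        split_ifs <;> simp
      · rw [if_neg he, if_neg (fun h => he h.2.symm), if_neg (fun h => he h.2.symm), sub_zero]
    rw [h13, h14] at h12
    have h15 : ∀ a b c : ℤ, a + b - c = a - (c - b) := fun a b c => by ring
    rw [h15]
    exact h12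
  · have h12 : ∑ s ∈ Finset.range B.length, (if s + B.length - js s = e then
        cnt x (body (js s) (trs s)) else 0) = 0 := by
      refine Finset.sum_eq_zero fun s hs => ?_
      have hs' := Finset.mem_range.1 hs
      by_cases he : e < M
      · have hx' : x ∉ U := fun h => hx ⟨h, he⟩
        have h13 : cnt x (body (js s) (trs s)) = 0 := by
          unfold cnt
          apply List.sum_eq_zero
          intro y hy
          obtain ⟨p, hp, rfl⟩ := List.mem_map.1 hy
          rw [if_neg]
          rintro rfl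
          exact hx' (hU s hs' p hp)
        rw [h13]; simp
      · rw [if_neg (by omega)]
    rw [h12, if_neg, if_neg]
    · simp
    · rintro ⟨rfl, rfl⟩
      exact hx ⟨hUJ, by omega⟩
    · rintro ⟨rfl, rfl⟩
      exact hx ⟨hU0, by omega⟩

/-- **Completeness of the gadget.** -/
lemma prod_path (idx : List ℕ → ℕ) (t b : G) (L M n : ℕ) (s : ℕ → List ℕ) (v : ℕ → CW) :
    ((List.range n).map fun j => gel idx t b L M (j, (s j, s (j + 1), v j))).prod =
      (cell idx t b L M (0 :: 0 :: s 0))⁻¹ *
        val (fun x => cell idx t b L M (1 :: x)) ((List.range n).flatMap v) *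
        cell idx t b L M (0 :: n :: s n) * (t ^ L) ^ n := by
  have hmap : ∀ w : CW, val (cell idx t b L M) (w.map fun p => (1 :: p.1, p.2)) =
      val (fun x => cell idx t b L M (1 :: x)) w := by
    intro w
    simp [val, List.map_map, Function.comp_def]
  induction n with
  | zero => simp [val]
  | succ n ih =>
    rw [List.range_succ, List.map_append, List.prod_append, ih, List.flatMap_append,
      List.flatMap_singleton, val_append]
    simp only [List.map_cons, List.map_nil, List.prod_cons, List.prod_nil, mul_one, gel, body]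
    rw [val_cons, val_append, hmap, val_cons, val_nil]
    simp only [Bool.false_eq_true, if_false, if_true]
    group

end Pool.Agent.Helper84.SG
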