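import Pool.Agent.Helper87.SSP.Ring

/-!
# Polynomials with small coefficients at a large power

Project SG (MP_9292e0_lc), piece SG-2.
-/

namespace Pool.Agent.Helper84.SG

open Polynomial

/-! ### The nonarchimedean case -/

section val

variable {F Γ : Type*} [Field F] [LinearOrderedCommGroupWithZero Γ] (w : Valuation F Γ)

lemma val_nat_le_one (n : ℕ) : w (n : F) ≤ 1 := by
  induction n with
  | zero => simp
  | succ n ih =>
    rw [Nat.cast_succ]
    exact w.map_add_le ih (by simp)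

lemma val_int_le_one (n : ℤ) : w (n : F) ≤ 1 := by
  obtain ⟨m, rfl | rfl⟩ := n.eq_nat_or_neg
  · rw [Int.cast_natCast]
    exact val_nat_le_one w m
  · rw [Int.cast_neg, Int.cast_natCast, Valuation.map_neg]
    exact val_nat_le_one w m

/-- A lower bound for the valuation of integers. -/
lemma exists_lower [CharZero F] : ∃ c : Γ, 0 < c ∧ c ≤ 1 ∧ ∀ n : ℕ, n ≠ 0 → c ^ n ≤ w (n : F) := by
  classical
  by_cases h : ∃ n : ℕ, 0 < n ∧ w (n : F) < 1
  · set p := Nat.find h with hp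
    obtain ⟨hp0, hp1⟩ := Nat.find_spec h
    rw [← hp] at hp0 hp1
    have hmin : ∀ m : ℕ, 0 < m → m < p → ¬ w (m : F) < 1 := fun m hm hmp hlt =>
      Nat.find_min h hmp ⟨hm, hlt⟩
    have hc0 : 0 < w (p : F) := by
      rw [zero_lt_iff, Valuation.ne_zero_iff]
      exact_mod_cast hp0.ne'
    refine ⟨w (p : F), hc0, hp1.le, ?_⟩
    intro n
    induction n using Nat.strong_induction_on with
    | _ n ih =>
      intro hn
      by_cases hn1 : w (n : F) < 1
      · have hdm : (n : F) = (p : F) * ((n / p : ℕ) : F) + ((n % p : ℕ) : F) := by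
          exact_mod_cast (Nat.div_add_mod n p).symm
        have hr : w ((n % p : ℕ) : F) < 1 := by
          have e : ((n % p : ℕ) : F) = (n : F) - (p : F) * ((n / p : ℕ) : F) := by
            rw [hdm]
            ring
          rw [e]
          refine w.map_sub_lt hn1 ?_
          rw [map_mul]
          exact mul_lt_one_of_lt_of_le hp1 (val_nat_le_one w _)
        have hr0 : n % p = 0 := by
          by_contra hr0
          exact hmin _ (Nat.pos_of_ne_zero hr0) (Nat.mod_lt _ hp0) hr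
        have hm0 : n / p ≠ 0 := by
          intro h0
          have := Nat.div_add_mod n p
          rw [h0, hr0] at this
          omega
        have hp2 : 2 ≤ p := by
          by_contra hlt
          have : p = 1 := by omega
          rw [this] at hp1
          simp at hp1
        have hlt : n / p < n := Nat.div_lt_self (Nat.pos_of_ne_zero hn) hp2
        have h2 := ih _ hlt hm0
        have e : w (n : F) = w (p : F) * w ((n / p : ℕ) : F) := by
          rw [← map_mul, hdm, hr0]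
          simp
        rw [e]
        calc w (p : F) ^ n ≤ w (p : F) ^ (n / p + 1) := pow_le_pow_right_of_le_one' hp1.le hlt
          _ = w (p : F) * w (p : F) ^ (n / p) := pow_succ' _ _
          _ ≤ _ := mul_le_mul_right h2 _
      · exact (pow_le_one' hp1.le n).trans (not_lt.1 hn1)
  · push Not at h
    exact ⟨1, zero_lt_one, le_rfl, fun n hn => by
      rw [one_pow]
      exact h n (Nat.pos_of_ne_zero hn)⟩

/-- No small polynomial vanishes at `x ^ L`, if `x` has a large valuation. -/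
lemma nonarch [CharZero F] [MulArchimedean Γ] {x : F} (hx : 1 < w x) :
    ∃ κ : ℕ, 1 ≤ κ ∧ ∀ B L : ℕ, κ * (B + 1) ≤ L → ∀ Q : ℤ[X], (∀ i, |Q.coeff i| ≤ (B : ℤ)) →
      aeval (x ^ L) Q = 0 → Q = 0 := by
  obtain ⟨c, hc0, hc1, hc⟩ := exists_lower w
  obtain ⟨k, hk⟩ := MulArchimedean.arch (c⁻¹) hx
  refine ⟨k + 1, by omega, ?_⟩
  intro B L hL Q hQ h0
  by_contra hQ0
  set q := Q.leadingCoeff with hq
  have hq0 : q ≠ 0 := leadingCoeff_ne_zero.2 hQ0
  have hwq : c ^ B ≤ w (q : F) := by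
    have h1 : w (q : F) = w ((q.natAbs : ℕ) : F) := by
      rcases Int.natAbs_eq q with h | h
      · conv_lhs => rw [h]
        rw [Int.cast_natCast]
      · conv_lhs => rw [h]
        rw [Int.cast_neg, Int.cast_natCast, Valuation.map_neg]
    rw [h1]
    refine le_trans ?_ (hc _ (Int.natAbs_ne_zero.2 hq0))
    refine pow_le_pow_right_of_le_one' hc1 ?_
    have h2 : |q| ≤ (B : ℤ) := hQ Q.natDegree
    rw [← Int.natCast_natAbs] at h2
    exact_mod_cast h2
  have hy1 : 1 < w (x ^ L) := by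
    rw [map_pow]
    exact one_lt_pow₀ hx (by
      have : 0 < (k + 1) * (B + 1) := by positivity
      omega)
  have hqy : 1 < w (q : F) * w (x ^ L) := by
    have h1 : c⁻¹ < w x ^ (k + 1) := by
      rw [pow_succ]
      calc c⁻¹ ≤ w x ^ k := hk
        _ = w x ^ k * 1 := (mul_one _).symm
        _ < w x ^ k * w x := by
          refine mul_lt_mul_of_pos_left hx ?_
          exact pow_pos (zero_lt_one.trans hx) k
    have h2 : (c⁻¹) ^ (B + 1) < w (x ^ L) := by
      rw [map_pow]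
      calc (c⁻¹) ^ (B + 1) < (w x ^ (k + 1)) ^ (B + 1) :=
            pow_lt_pow_left₀ h1 zero_le' (by omega)
        _ = w x ^ ((k + 1) * (B + 1)) := (pow_mul _ _ _).symm
        _ ≤ w x ^ L := pow_le_pow_right₀ hx.le hL
    calc (1 : Γ) ≤ c⁻¹ := (one_le_inv₀ hc0).2 hc1
      _ = c ^ B * (c⁻¹) ^ (B + 1) := by
        rw [pow_succ, ← mul_assoc, ← mul_pow, mul_inv_cancel₀ hc0.ne', one_pow, one_mul]
      _ < c ^ B * w (x ^ L) := mul_lt_mul_of_pos_left h2 (pow_pos hc0 B)
      _ ≤ w (q : F) * w (x ^ L) := mul_le_mul_left hwq _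
  set y := x ^ L with hy
  set n := Q.natDegree with hn
  rw [aeval_eq_sum_range, Finset.sum_range_succ] at h0
  have hyp : (0 : Γ) < w y := zero_lt_one.trans hy1
  have hlt : w (∑ i ∈ Finset.range n, Q.coeff i • y ^ i) < w ((Q.coeff n) • y ^ n) := by
    have e : w ((Q.coeff n) • y ^ n) = w (q : F) * w y ^ n := by
      rw [zsmul_eq_mul, map_mul, map_pow]
      rfl
    rw [e]
    refine Valuation.map_sum_lt _ ?_ (fun i hi => ?_)
    · refine mul_ne_zero ?_ (pow_ne_zero _ hyp.ne')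
      rw [Valuation.ne_zero_iff]
      exact_mod_cast hq0
    · rw [Finset.mem_range] at hi
      obtain ⟨m, hm⟩ : ∃ m, n = i + m + 1 := ⟨n - i - 1, by omega⟩
      rw [zsmul_eq_mul, map_mul, map_pow]
      calc w (Q.coeff i : F) * w y ^ i ≤ 1 * w y ^ i := mul_le_mul_left (val_int_le_one w _) _
        _ ≤ w y ^ m * w y ^ i := mul_le_mul_left (one_le_pow₀ hy1.le) _
        _ = 1 * w y ^ (i + m) := by rw [one_mul, pow_add, mul_comm]
        _ < (w (q : F) * w y) * w y ^ (i + m) := mul_lt_mul_of_pos_right hqy (pow_pos hyp _)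
        _ = w (q : F) * w y ^ n := by rw [hm, pow_succ' (w y) (i + m), mul_assoc]
  have h1 : w ((Q.coeff n) • y ^ n) = w (∑ i ∈ Finset.range n, Q.coeff i • y ^ i) := by
    rw [← Valuation.map_neg]
    congr 1
    linear_combination -h0
  rw [h1] at hlt
  exact lt_irrefl _ hlt

end val

/-! ### The archimedean case -/

lemma norm_lt_of_root {B : ℕ} {Q : ℤ[X]} (hQ0 : Q ≠ 0) (hQ : ∀ i, |Q.coeff i| ≤ (B : ℤ)) {z : ℂ}
    (h : aeval z Q = 0) : ‖z‖ < B + 1 := by
  set p := Q.map (Int.castRingHom ℂ) with hp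
  have hp0 : p ≠ 0 := (Polynomial.map_ne_zero_iff (RingHom.injective_int _)).2 hQ0
  have hroot : p.IsRoot z := by
    rw [IsRoot.def, hp, eval_map]
    exact h
  have h1 := hroot.norm_lt_cauchyBound hp0
  have hc : ∀ i, ‖p.coeff i‖₊ ≤ (B : NNReal) := by
    intro i
    rw [← NNReal.coe_le_coe]
    simp only [hp, coeff_map, coe_nnnorm, NNReal.coe_natCast, eq_intCast]
    rw [Complex.norm_intCast]
    exact_mod_cast hQ i
  have hl : 1 ≤ ‖p.leadingCoeff‖₊ := by
    rw [← NNReal.coe_le_coe]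
    have e : p.leadingCoeff = ((Q.leadingCoeff : ℤ) : ℂ) := by
      rw [hp, leadingCoeff_map_of_injective (RingHom.injective_int _)]; rfl
    rw [coe_nnnorm, NNReal.coe_one, e, Complex.norm_intCast]
    have : Q.leadingCoeff ≠ 0 := leadingCoeff_ne_zero.2 hQ0
    exact_mod_cast Int.one_le_abs this
  have h2 : p.cauchyBound ≤ B + 1 := by
    unfold cauchyBound
    have h3 : (Finset.range p.natDegree).sup (‖p.coeff ·‖₊) / ‖p.leadingCoeff‖₊ ≤ (B : NNReal) := by
      rw [div_le_iff₀ (by positivity)]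
      refine (Finset.sup_le fun i _ => hc i).trans ?_
      exact le_mul_of_one_le_right (by positivity) hl
    gcongr
  have h3 := h1.trans_le h2
  exact_mod_cast h3

/-- No small polynomial vanishes at `z ^ L`, if `‖z‖ > 1`. -/
lemma arch {z : ℂ} (hz : 1 < ‖z‖) :
    ∃ κ : ℕ, 1 ≤ κ ∧ ∀ B L : ℕ, κ * (B + 1) ≤ L → ∀ Q : ℤ[X], (∀ i, |Q.coeff i| ≤ (B : ℤ)) →
      aeval (z ^ L) Q = 0 → Q = 0 := by
  obtain ⟨k, hk⟩ := pow_unbounded_of_one_lt 2 hz
  refine ⟨k + 1, by omega, ?_⟩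
  intro B L hL Q hQ h0
  by_contra hQ0
  have h1 := norm_lt_of_root hQ0 hQ h0
  rw [norm_pow] at h1
  have h2 : (2 : ℝ) ≤ ‖z‖ ^ (k + 1) :=
    hk.le.trans (pow_le_pow_right₀ hz.le (by omega))
  have h3 : ((B : ℝ) + 1) < 2 ^ (B + 1) := by
    have : B + 1 < 2 ^ (B + 1) := Nat.lt_two_pow_self
    exact_mod_cast this
  have h4 : (2 : ℝ) ^ (B + 1) ≤ ‖z‖ ^ L := by
    calc (2 : ℝ) ^ (B + 1) ≤ (‖z‖ ^ (k + 1)) ^ (B + 1) :=
          pow_le_pow_left₀ (by norm_num) h2 _
      _ = ‖z‖ ^ ((k + 1) * (B + 1)) := (pow_mul _ _ _).symm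
      _ ≤ ‖z‖ ^ L := pow_le_pow_right₀ hz.le hL
  linarith

/-! ### Number fields -/

lemma key_numberField {F : Type*} [Field F] [NumberField F] {x : F} (hx0 : x ≠ 0)
    (hx : ∀ k : ℕ, 1 ≤ k → x ^ k ≠ 1) :
    ∃ κ : ℕ, 1 ≤ κ ∧ ∀ B L : ℕ, κ * (B + 1) ≤ L → ∀ Q : ℤ[X], (∀ i, |Q.coeff i| ≤ (B : ℤ)) →
      aeval (x ^ L) Q = 0 → Q = 0 := by
  by_cases hi : IsIntegral ℤ x
  · have hφ : ∃ φ : F →+* ℂ, 1 < ‖φ x‖ := by
      by_contra hcon
      push Not at hcon
      obtain ⟨n, hn, hxn⟩ := NumberField.Embeddings.pow_eq_one_of_norm_le_one F ℂ hx0 hi hcon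
      exact hx n hn hxn
    obtain ⟨φ, hφ⟩ := hφ
    obtain ⟨κ, hκ, H⟩ := arch hφ
    refine ⟨κ, hκ, fun B L hL Q hQ h0 => H B L hL Q hQ ?_⟩
    have h2 := congrArg φ h0
    rw [map_zero] at h2
    rw [← h2, ← map_pow, aeval_def, aeval_def, hom_eval₂]
    congr 1
    exact Subsingleton.elim _ _
  · have hv : ∃ v : IsDedekindDomain.HeightOneSpectrum (NumberField.RingOfIntegers F),
        1 < v.valuation F x := by
      by_contra hcon
      push Not at hcon
      have := IsDedekindDomain.HeightOneSpectrum.mem_integers_of_valuation_le_one F x hcon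
      obtain ⟨y, rfl⟩ := this
      exact hi (NumberField.RingOfIntegers.isIntegral_coe y)
    obtain ⟨v, hv⟩ := hv
    exact nonarch (v.valuation F) hv

/-! ### Fields of characteristic zero -/

lemma key_field {K : Type*} [Field K] [CharZero K] {v : K} (hv0 : v ≠ 0)
    (hv : ∀ k : ℕ, 1 ≤ k → v ^ k ≠ 1) :
    ∃ κ : ℕ, 1 ≤ κ ∧ ∀ B L : ℕ, κ * (B + 1) ≤ L → ∀ Q : ℤ[X], (∀ i, |Q.coeff i| ≤ (B : ℤ)) →
      aeval (v ^ L) Q = 0 → Q = 0 := by
  by_cases halg : IsAlgebraic ℚ v
  · have hvQ : IsIntegral ℚ v := halg.isIntegral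
    let F := IntermediateField.adjoin ℚ {v}
    have : FiniteDimensional ℚ F := IntermediateField.adjoin.finiteDimensional hvQ
    have : NumberField F := ⟨⟩
    let x : F := ⟨v, IntermediateField.mem_adjoin_simple_self ℚ v⟩
    have hx0 : x ≠ 0 := fun h => hv0 (congrArg Subtype.val h)
    have hx : ∀ k : ℕ, 1 ≤ k → x ^ k ≠ 1 := by
      intro k hk h
      have := congrArg (algebraMap F K) h
      exact hv k hk (by simpa [x] using this)
    obtain ⟨κ, hκ, H⟩ := key_numberField hx0 hx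
    refine ⟨κ, hκ, fun B L hL Q hQ h0 => H B L hL Q hQ ?_⟩
    apply (algebraMap F K).injective
    rw [map_zero, ← h0]
    have := (Polynomial.aeval_algebraMap_apply K (x ^ L) Q).symm
    rw [this]
    simp [x]
  · refine ⟨1, le_rfl, fun B L hL Q hQ h0 => ?_⟩
    have hL0 : 0 < L := by omega
    by_contra hQ0
    apply halg
    rw [← IsFractionRing.isAlgebraic_iff ℤ ℚ K]
    refine ⟨expand ℤ L Q, (expand_ne_zero hL0).2 hQ0, ?_⟩
    rw [expand_aeval]
    exact h0

/-! ### Positive characteristic -/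

lemma key_char {R : Type*} [CommRing R] [IsDomain R] {p : ℕ} [Fact p.Prime] [CharP R p] {x : R}
    (hx0 : x ≠ 0) (hx : ∀ k : ℕ, 1 ≤ k → x ^ k ≠ 1) {L : ℕ} (hL : 0 < L) {Q : ℤ[X]}
    (h0 : aeval (x ^ L) Q = 0) : ∀ i, ((Q.coeff i : ℤ) : R) = 0 := by
  let : Algebra (ZMod p) R := ZMod.algebra R p
  set q : (ZMod p)[X] := Q.map (Int.castRingHom (ZMod p)) with hq
  have hq0 : q = 0 := by
    by_contra hq0
    have hxa : IsAlgebraic (ZMod p) x := by
      refine ⟨expand (ZMod p) L q, (expand_ne_zero hL).2 hq0, ?_⟩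
      rw [expand_aeval, ← h0, hq, aeval_def, aeval_def, eval₂_map]
      congr 1
      exact Subsingleton.elim _ _
    have hxi : IsIntegral (ZMod p) x := hxa.isIntegral
    have hfin : Module.Finite (ZMod p) (Algebra.adjoin (ZMod p) {x}) :=
      Module.Finite.iff_fg.2 hxi.fg_adjoin_singleton
    have : Finite (Algebra.adjoin (ZMod p) {x}) := Module.finite_of_finite (ZMod p)
    let f : ℕ → Algebra.adjoin (ZMod p) {x} := fun n =>
      ⟨x ^ n, Subalgebra.pow_mem _ (Algebra.self_mem_adjoin_singleton _ x) n⟩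
    obtain ⟨i, j, hij, hfij⟩ := Finite.exists_ne_map_eq_of_infinite f
    have key : ∀ i j : ℕ, i < j → x ^ i = x ^ j → False := by
      intro i j hij h
      obtain ⟨m, rfl⟩ := Nat.exists_eq_add_of_lt hij
      have h1 : x ^ i * (x ^ (m + 1) - 1) = 0 := by
        have : x ^ (i + m + 1) = x ^ i * x ^ (m + 1) := by rw [← pow_add, add_assoc]
        rw [mul_sub, mul_one, ← this, ← h, sub_self]
      rcases mul_eq_zero.1 h1 with h2 | h2
      · exact pow_ne_zero _ hx0 h2
      · exact hx (m + 1) (by omega) (sub_eq_zero.1 h2)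
    have hfij' : x ^ i = x ^ j := congrArg Subtype.val hfij
    rcases lt_or_gt_of_ne hij with h | h
    · exact key i j h hfij'
    · exact key j i h hfij'.symm
  intro i
  have h1 : ((Q.coeff i : ℤ) : ZMod p) = 0 := by
    have := congrArg (fun r => coeff r i) hq0
    simpa [hq] using this
  have h2 := congrArg (algebraMap (ZMod p) R) h1
  simpa using h2

/-- SG-2 -/
theorem indep_of_prime (P : Ideal ℤ[X]) [P.IsPrime] (hX : (X : ℤ[X]) ∉ P)
    (h : ∀ k : ℕ, 1 ≤ k → (X ^ k - 1 : ℤ[X]) ∉ P) :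
    ∃ κ : ℕ, 1 ≤ κ ∧ ∀ B L : ℕ, κ * (B + 1) ≤ L → ∀ Q : ℤ[X], (∀ i, |Q.coeff i| ≤ (B : ℤ)) →
      expand ℤ L Q ∈ P → ∀ i, (C (Q.coeff i) : ℤ[X]) ∈ P := by
  set R := ℤ[X] ⧸ P with hR
  set x : R := Ideal.Quotient.mk P X with hxdef
  have hx0 : x ≠ 0 := by
    rw [hxdef, Ne, Ideal.Quotient.eq_zero_iff_mem]
    exact hX
  have hx : ∀ k : ℕ, 1 ≤ k → x ^ k ≠ 1 := by
    intro k hk h1
    apply h k hk
    rw [← Ideal.Quotient.eq_zero_iff_mem, map_sub, map_pow, map_one, ← hxdef, h1, sub_self]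
  have haev : ∀ Q : ℤ[X], aeval x Q = Ideal.Quotient.mk P Q := by
    intro Q
    have h1 : aeval x Q = (Ideal.Quotient.mkₐ ℤ P) (aeval (X : ℤ[X]) Q) := by
      rw [← aeval_algHom_apply]
      rfl
    rw [h1, aeval_X_left_apply]
    rfl
  have hexp : ∀ (L : ℕ) (Q : ℤ[X]), expand ℤ L Q ∈ P → aeval (x ^ L) Q = 0 := by
    intro L Q hQ
    rw [← expand_aeval, haev, Ideal.Quotient.eq_zero_iff_mem]
    exact hQ
  have hC : ∀ n : ℤ, (C n : ℤ[X]) ∈ P ↔ (n : R) = 0 := by
    intro n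
    rw [← Ideal.Quotient.eq_zero_iff_mem]
    simp
  obtain ⟨p, hp⟩ := CharP.exists R
  rcases Nat.eq_zero_or_pos p with rfl | hp0
  · have : CharZero R := CharP.charP_to_charZero R
    have hinj : Function.Injective (algebraMap R (FractionRing R)) :=
      IsFractionRing.injective R (FractionRing R)
    have : CharZero (FractionRing R) := charZero_of_injective_algebraMap hinj
    obtain ⟨κ, hκ, H⟩ := key_field (K := FractionRing R) (v := algebraMap R (FractionRing R) x)
      (fun h0 => hx0 (hinj (by rw [h0, map_zero])))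
      (fun k hk h1 => hx k hk (hinj (by rw [map_pow, h1, map_one])))
    refine ⟨κ, hκ, fun B L hL Q hQ hQP i => ?_⟩
    have h0 := hexp L Q hQP
    have hQ0 : Q = 0 := by
      refine H B L hL Q hQ ?_
      rw [← map_pow, Polynomial.aeval_algebraMap_apply, h0, map_zero]
    rw [hQ0]
    simp
  · have hpp : p.Prime := (CharP.char_is_prime_or_zero R p).resolve_right hp0.ne'
    have : Fact p.Prime := ⟨hpp⟩
    refine ⟨1, le_rfl, fun B L hL Q hQ hQP i => ?_⟩
    rw [hC]
    exact key_char (p := p) hx0 hx (by omega) (hexp L Q hQP) i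

end Pool.Agent.Helper84.SG
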