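import Pool.Agent.Helper84.SG.Orb
import Pool.Agent.Helper87.SSP2.NonUni

/-!
# The instance of the subset sum problem
-/

namespace Pool.Agent.Helper84.SG

open Pool.Agent.Helper87.SSP2 (DD KK GoodPair orb ev_wD' ev_flatMap cls)
open Pool.Agent.Helper87.SSP (Word ev ev_append ev_winv winv ev_nil wpow wD ev_wpow)

/-- The letters of the instance. -/
def letters (B : Aut) : List (List ℕ) :=
  [0, 0, 0] :: [0, B.length, 0] :: (items B).flatMap fun x => (body x.1 x.2).map Prod.fst

/-- The index of a letter in a list. -/
def idxU (U : List (List ℕ)) (x : List ℕ) : ℕ :=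
  (((List.range U.length).filter fun i => decide (U[i]? = some x)).head?).getD 0

lemma getElem?_idxU {U : List (List ℕ)} {x : List ℕ} (hx : x ∈ U) : U[idxU U x]? = some x := by
  unfold idxU
  obtain ⟨i, hi, rfl⟩ := List.mem_iff_getElem.1 hx
  have h1 : i ∈ (List.range U.length).filter fun j => decide (U[j]? = some U[i]) := by
    rw [List.mem_filter, List.mem_range]
    exact ⟨hi, by simp [List.getElem?_eq_getElem hi]⟩
  cases h : (List.range U.length).filter fun j => decide (U[j]? = some U[i]) with
  | nil => rw [h] at h1; simp at h1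
  | cons j l =>
    have h2 : j ∈ (List.range U.length).filter fun j => decide (U[j]? = some U[i]) := by
      rw [h]; exact List.mem_cons_self
    rw [List.mem_filter] at h2
    simpa using h2.2

lemma idxU_inj {U : List (List ℕ)} : ∀ x ∈ U, ∀ y ∈ U, idxU U x = idxU U y → x = y := by
  intro x hx y hy h
  have h1 := getElem?_idxU hx
  rw [h, getElem?_idxU hy] at h1
  simpa using h1.symm

/-- The bound for the coefficients. -/
def size (B : Aut) : ℕ := ((items B).flatMap fun x => body x.1 x.2).length + 2

/-- The spacing. -/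
def LL (κ : ℕ) (B : Aut) : ℕ := κ * (size B + 1)

/-- The distance of the letters. -/
def MM (B : Aut) : ℕ := 2 * B.length + 1

variable {g : ℕ}

/-- The word of a cell. -/
def wcell (τ β : Word g) (κ : ℕ) (B : Aut) (x : List ℕ) : Word g :=
  wD τ β (LL κ B * (MM B * idxU (letters B) x))

/-- The word of a symbolic word. -/
def wval (E : List ℕ → Word g) (w : CW) : Word g :=
  w.flatMap fun p => if p.2 = true then E p.1 else winv (E p.1)

/-- The word of an item. -/
def wgel (τ β : Word g) (κ : ℕ) (B : Aut) (x : ℕ × Tr) : Word g :=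
  winv (wpow τ (LL κ B * x.1)) ++ (wval (wcell τ β κ B) (body x.1 x.2) ++
    wpow τ (LL κ B * (x.1 + 1)))

/-- The target. -/
def wtar (τ β : Word g) (κ : ℕ) (B : Aut) : Word g :=
  winv (wcell τ β κ B [0, 0, 0]) ++ (wcell τ β κ B [0, B.length, 0] ++
    wpow τ (LL κ B * B.length))

section ev

variable {G : Type*} [Group G] (s : Fin g → G) {t b : G} {τ β : Word g}

lemma ev_wval (E : List ℕ → Word g) (w : CW) : ev s (wval E w) = val (fun x => ev s (E x)) w := by
  unfold wval val
  rw [ev_flatMap]
  congr 2
  funext p
  split_ifs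
  · rfl
  · exact ev_winv s _

lemma ev_wcell (hτ : ev s τ = t) (hβ : ev s β = b) (κ : ℕ) (B : Aut) (x : List ℕ) :
    ev s (wcell τ β κ B x) = cell (idxU (letters B)) t b (LL κ B) (MM B) x := by
  rw [wcell, ev_wD', hτ, hβ, cell]

lemma ev_wgel (hτ : ev s τ = t) (hβ : ev s β = b) (κ : ℕ) (B : Aut) (x : ℕ × Tr) :
    ev s (wgel τ β κ B x) = gel (idxU (letters B)) t b (LL κ B) (MM B) x := by
  rw [wgel, ev_append, ev_append, ev_winv, ev_wpow, ev_wpow, ev_wval, gel, hτ, pow_mul, pow_mul,
    mul_assoc]
  congr 3
  funext y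
  exact ev_wcell s hτ hβ κ B y

lemma ev_wtar (hτ : ev s τ = t) (hβ : ev s β = b) (κ : ℕ) (B : Aut) :
    ev s (wtar τ β κ B) = (cell (idxU (letters B)) t b (LL κ B) (MM B) [0, 0, 0])⁻¹ *
      cell (idxU (letters B)) t b (LL κ B) (MM B) [0, B.length, 0] *
        (t ^ LL κ B) ^ B.length := by
  rw [wtar, ev_append, ev_append, ev_winv, ev_wpow, ev_wcell s hτ hβ, ev_wcell s hτ hβ, hτ,
    pow_mul, mul_assoc]

end ev

/-- **The gadget.** -/
theorem gadget {G : Type*} [Group G] (s : Fin g → G) {t a b : G} {k κ d : ℕ}
    (h : Ind (orb t a) t b k κ) (hd : KK t a d = ⊥) {τ β : Word g} (hτ : ev s τ = t)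
    (hβ : ev s β = b) (n m : ℕ) (A : ℕ → ℕ → Bool) :
    (∃ l' : List (Word g), l'.Sublist ((items (autD n m A d)).map
        (wgel τ β κ (autD n m A d))) ∧
      (l'.map (ev s)).prod = ev s (wtar τ β κ (autD n m A d))) ↔ XCov n m A := by
  set B := autD n m A d with hB
  constructor
  · rintro ⟨l', h1, h2⟩
    obtain ⟨S, hS, rfl⟩ := List.sublist_map_iff.1 h1
    rw [List.map_map, ev_wtar s hτ hβ] at h2
    have hfun : (ev s ∘ wgel τ β κ B) = gel (idxU (letters B)) t b (LL κ B) (MM B) :=
      funext fun x => ev_wgel s hτ hβ κ B x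
    rw [hfun] at h2
    set f : ℕ → ℕ × Tr := fun i => S.getD i (0, [], [], []) with hf
    have hSf : S = (List.range S.length).map f := by
      apply List.ext_getElem
      · simp
      · intro i h3 h4
        simp [hf, List.getD_eq_getElem?_getD, List.getElem?_eq_getElem h3]
    have hfS : ∀ i < S.length, f i ∈ S := by
      intro i hi
      simp only [hf, List.getD_eq_getElem?_getD, List.getElem?_eq_getElem hi, Option.getD_some]
      exact List.getElem_mem hi
    have hmem : ∀ i < S.length, f i ∈ items B := fun i hi => hS.subset (hfS i hi)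
    have hsum : ∑ i ∈ Finset.range S.length, (body (f i).1 (f i).2).length =
        (S.flatMap fun x => body x.1 x.2).length := by
      conv_rhs => rw [hSf]
      rw [List.flatMap_map, List.length_flatMap]
      generalize S.length = N
      induction N with
      | zero => rfl
      | succ N ih =>
        rw [Finset.sum_range_succ, ih, List.range_succ, List.map_append, List.sum_append]
        simp
    have hlen : (S.flatMap fun x => body x.1 x.2).length + 2 ≤ size B := by
      unfold size
      have := (hS.flatMap (fun x : ℕ × Tr => body x.1 x.2)).length_le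
      omega
    obtain ⟨w, h3, h4⟩ := sound h (B := B) (idx := idxU (letters B)) (L := LL κ B) (M := MM B)
      (n := S.length) (Bd := size B) (U := letters B) (fun i => (f i).1) (fun i => (f i).2)
      (fun i hi => mem_items.1 (hmem i hi))
      (fun i hi p hp => by
        unfold letters
        refine List.mem_cons_of_mem _ (List.mem_cons_of_mem _ (List.mem_flatMap.2
          ⟨f i, hmem i hi, List.mem_map.2 ⟨p, hp, rfl⟩⟩)))
      (by simp [letters]) (by simp [letters]) idxU_inj le_rfl le_rfl (by rw [hsum]; exact hlen)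
      (by
        have h5 : ((List.range S.length).map fun i =>
            gel (idxU (letters B)) t b (LL κ B) (MM B) ((f i).1, (f i).2)) =
            S.map (gel (idxU (letters B)) t b (LL κ B) (MM B)) := by
          conv_rhs => rw [hSf]
          rw [List.map_map]
          rfl
        rw [h5]
        exact h2)
    exact xcov_of_bal h.hk n m A d w h3 h4
  · intro hX
    obtain ⟨z, hz, hval⟩ := exists_acc hX d
    obtain ⟨q, v, h1, h2, h3, h4⟩ := acc_iff_fn.1 hz
    refine ⟨(List.range B.length).map fun j => wgel τ β κ B (j, (q j, q (j + 1), v j)), ?_, ?_⟩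
    · have h5 : ((List.range B.length).map fun j => wgel τ β κ B (j, (q j, q (j + 1), v j))) =
          (((List.range B.length).map fun j => ((j, (q j, q (j + 1), v j)) : ℕ × Tr))).map
            (wgel τ β κ B) := by rw [List.map_map]; rfl
      rw [h5]
      refine List.Sublist.map _ ?_
      unfold items
      refine map_sublist_flatMap _ fun j hj => ?_
      exact List.mem_map.2 ⟨_, h3 j (List.mem_range.1 hj), rfl⟩
    · rw [List.map_map, ev_wtar s hτ hβ]
      have h5 : (ev s ∘ fun j => wgel τ β κ B (j, (q j, q (j + 1), v j))) = fun j =>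
          gel (idxU (letters B)) t b (LL κ B) (MM B) (j, (q j, q (j + 1), v j)) :=
        funext fun j => ev_wgel s hτ hβ κ B _
      rw [h5, prod_path, h1, ← h4, h2]
      have h6 : val (fun x => cell (idxU (letters B)) t b (LL κ B) (MM B) (1 :: x)) z ∈
          KK t a d := hval G (KK t a) (fun _ => rfl) _ fun x => h.DD_mem _
      rw [hd, Subgroup.mem_bot] at h6
      rw [h6, mul_one]

end Pool.Agent.Helper84.SG
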