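import Pool.Agent.Helper84.SG.Aut
import Pool.Agent.Helper87.SSP2.Cls

/-!
# Balanced words and words in the derived series
-/

namespace Pool.Agent.Helper84.SG

/-- The signed number of occurrences of a letter. -/
def cnt (x : List ℕ) (w : CW) : ℤ :=
  (w.map fun p => if p.1 = x then (if p.2 = true then (1 : ℤ) else -1) else 0).sum

lemma cnt_nil (x : List ℕ) : cnt x [] = 0 := rfl

lemma cnt_cons (x : List ℕ) (p : List ℕ × Bool) (w : CW) :
    cnt x (p :: w) = (if p.1 = x then (if p.2 = true then (1 : ℤ) else -1) else 0) + cnt x w := by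
  simp [cnt]

lemma cnt_append (x : List ℕ) (u v : CW) : cnt x (u ++ v) = cnt x u + cnt x v := by
  simp [cnt]

lemma cnt_flatMap (x : List ℕ) (n : ℕ) (f : ℕ → CW) :
    cnt x ((List.range n).flatMap f) = ∑ j ∈ Finset.range n, cnt x (f j) := by
  induction n with
  | zero => rfl
  | succ n ih =>
    rw [List.range_succ, List.flatMap_append, List.flatMap_singleton, cnt_append, ih,
      Finset.sum_range_succ]

lemma cnt_cinv (x : List ℕ) (w : CW) : cnt x (cinv w) = -cnt x w := by
  induction w with
  | nil => rfl
  | cons p w ih =>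
    have h : cinv (p :: w) = cinv w ++ [(p.1, !p.2)] := by simp [cinv]
    rw [h, cnt_append, ih, cnt_cons, cnt_cons, cnt_nil]
    rcases p with ⟨y, b⟩
    cases b <;> by_cases hy : y = x <;> simp [hy]

lemma cnt_ren (r' i' c' r i c : ℕ) (x : List ℕ) (w : CW) :
    cnt (r' :: i' :: c' :: x) (ren r i c w) =
      if r = r' ∧ i = i' ∧ c = c' then cnt x w else 0 := by
  induction w with
  | nil => simp [ren, cnt]
  | cons p w ih =>
    have h : ren r i c (p :: w) = (r :: i :: c :: p.1, p.2) :: ren r i c w := rfl
    rw [h, cnt_cons, ih, cnt_cons]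
    by_cases h1 : r = r' ∧ i = i' ∧ c = c'
    · obtain ⟨rfl, rfl, rfl⟩ := h1
      simp
    · rw [if_neg h1, if_neg h1, if_neg, add_zero]
      simp only [List.cons.injEq]
      tauto

/-- All letters are balanced modulo `k`. -/
def Bal (k : ℕ) (w : CW) : Prop := ∀ x, (k : ℤ) ∣ cnt x w

/-- The exact cover problem. -/
def XCov (n m : ℕ) (A : ℕ → ℕ → Bool) : Prop :=
  ∃ c : ℕ → Prop, ∀ i < m, ∃ r < n, c r ∧ A r i = true ∧
    ∀ r' < n, c r' → A r' i = true → r' = r

/-- The words of the language have the right form. -/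
lemma acc_step {n m : ℕ} {A : ℕ → ℕ → Bool} {B : Aut} {w : CW}
    (h : Acc (step n m A B) [0] [0] w) : ∃ (b : ℕ → Prop) (_ : DecidablePred b)
      (u : ℕ → ℕ → CW) (c : ℕ → ℕ → ℕ) (u' : ℕ → ℕ → CW),
      (∀ r < n, ∀ i < m, Acc B [0] [0] (u r i)) ∧
      (∀ i < m, ∀ r < n, c i r = 0 ∨ c i r = 1 ∧ A r i = true) ∧
      (∀ i < m, ∑ r ∈ Finset.range n, c i r = 1) ∧
      (∀ i < m, ∀ r < n, Acc (invAut B) [0] [0] (u' i r)) ∧
      w = ((List.range n).flatMap fun r => (List.range m).flatMap fun i =>
          ren r i (if b r ∧ A r i = true then 1 else 0) (u r i)) ++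
        (List.range m).flatMap fun i => (List.range n).flatMap fun r =>
          ren r i (c i r) (u' i r) := by
  classical
  unfold step at h
  obtain ⟨q1, w1, w2, h1, h2, rfl⟩ := acc_append.1 h
  obtain ⟨s, v, h3, rfl, h4, rfl⟩ := acc_flatMap.1 h1
  obtain ⟨s', v', h5, h6, h7, rfl⟩ := acc_flatMap.1 h2
  have h8 : ∀ r, ∃ (b : Prop) (u : ℕ → CW), r < n → s r = [0] ∧ s (r + 1) = [0] ∧
      (∀ i < m, Acc B [0] [0] (u i)) ∧
      v r = (List.range m).flatMap fun i => ren r i (if b ∧ A r i = true then 1 else 0) (u i) := by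
    intro r
    by_cases hr : r < n
    · obtain ⟨h9, h10, b, hb, u, h11, h12⟩ := acc_row (h4 r hr)
      refine ⟨b, u, fun _ => ⟨h9, h10, h11, ?_⟩⟩
      rw [h12]
      refine flatMap_range_congr fun i _ => ?_
      congr 1
      split_ifs <;> rfl
    · exact ⟨True, fun _ => [], fun h => absurd h hr⟩
  choose b u hu using h8
  have h9 : ∀ r ≤ n, s r = [0] := by
    intro r hr
    rcases r with _ | r
    · exact h3
    · exact (hu r (by omega)).2.1
  rw [h9 n le_rfl] at h5
  have h10 : ∀ i ≤ m, s' i = [0] := by
    intro i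
    induction i with
    | zero => intro _; exact h5
    | succ i ih =>
      intro hi
      exact (acc_col (ih (by omega)) (h7 i (by omega))).1
  have h11 : ∀ i, ∃ (c : ℕ → ℕ) (u' : ℕ → CW), i < m →
      (∀ r < n, c r = 0 ∨ c r = 1 ∧ A r i = true) ∧ ∑ r ∈ Finset.range n, c r = 1 ∧
      (∀ r < n, Acc (invAut B) [0] [0] (u' r)) ∧
      v' i = (List.range n).flatMap fun r => ren r i (c r) (u' r) := by
    intro i
    by_cases hi : i < m
    · obtain ⟨-, c, u', h12⟩ := acc_col (h10 i hi.le) (h7 i hi)
      exact ⟨c, u', fun _ => h12⟩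
    · exact ⟨fun _ => 0, fun _ => [], fun h => absurd h hi⟩
  choose c u' hu' using h11
  refine ⟨b, fun _ => Classical.dec _, u, c, u', fun r hr => (hu r hr).2.2.1,
    fun i hi => (hu' i hi).1, fun i hi => (hu' i hi).2.1, fun i hi => (hu' i hi).2.2.1, ?_⟩
  congr 1
  · refine flatMap_range_congr fun r hr => ?_
    rw [(hu r hr).2.2.2]
  · exact flatMap_range_congr fun i hi => (hu' i hi).2.2.2

/-- **Soundness of the languages.** -/
theorem xcov_of_bal {k : ℕ} (hk : k ≠ 1) (n m : ℕ) (A : ℕ → ℕ → Bool) (d : ℕ) :
    ∀ w, Acc (autD n m A d) [0] [0] w → Bal k w → XCov n m A := by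
  induction d with
  | zero =>
    intro w h1 h2
    rw [autD, acc_singleton, List.mem_singleton] at h1
    simp only [Prod.mk.injEq, true_and] at h1
    subst h1
    have h3 := h2 []
    have h4 : cnt [] [([], true)] = 1 := by simp [cnt]
    rw [h4] at h3
    have h5 : (k : ℤ) ∣ ((1 : ℕ) : ℤ) := by simpa using h3
    rw [Int.natCast_dvd_natCast, Nat.dvd_one] at h5
    exact absurd h5 hk
  | succ d ih =>
    intro w h1 h2
    obtain ⟨b, hb, u, c, u', hu, hc, hs, hu', rfl⟩ := acc_step h1
    by_cases hcol : ∀ r < n, ∀ i < m, (if b r ∧ A r i = true then 1 else 0) = c i r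
    · refine ⟨b, fun i hi => ?_⟩
      have h3 : ∃ r < n, c i r = 1 := by
        by_contra hcon
        push Not at hcon
        have h4 := hs i hi
        rw [Finset.sum_eq_zero] at h4
        · omega
        · intro r hr
          rw [Finset.mem_range] at hr
          rcases hc i hi r hr with h5 | h5
          · exact h5
          · exact absurd h5.1 (hcon r hr)
      obtain ⟨r, hr, h4⟩ := h3
      have h5 : b r ∧ A r i = true := by
        by_contra h6
        have h7 := hcol r hr i hi
        rw [if_neg h6, h4] at h7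
        omega
      refine ⟨r, hr, h5.1, h5.2, fun r' hr' h6 h7 => ?_⟩
      by_contra hne
      have h8 := hcol r' hr' i hi
      rw [if_pos ⟨h6, h7⟩] at h8
      have h9 : ({r, r'} : Finset ℕ) ⊆ Finset.range n := by
        intro j hj
        simp only [Finset.mem_insert, Finset.mem_singleton] at hj
        rcases hj with rfl | rfl <;> simpa
      have h10 := Finset.sum_le_sum_of_subset (f := c i) h9
      rw [hs i hi, Finset.sum_pair (Ne.symm hne), h4, ← h8] at h10
      omega
    · push Not at hcol
      obtain ⟨r₀, hr₀, i₀, hi₀, hne⟩ := hcol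
      refine ih (u r₀ i₀) (hu r₀ hr₀ i₀ hi₀) fun x => ?_
      set c₀ := (if b r₀ ∧ A r₀ i₀ = true then 1 else 0) with hc₀
      have h3 := h2 (r₀ :: i₀ :: c₀ :: x)
      rw [cnt_append, cnt_flatMap, cnt_flatMap] at h3
      have h4 : ∑ r ∈ Finset.range n, cnt (r₀ :: i₀ :: c₀ :: x)
          ((List.range m).flatMap fun i =>
            ren r i (if b r ∧ A r i = true then 1 else 0) (u r i)) = cnt x (u r₀ i₀) := by
        rw [Finset.sum_eq_single_of_mem r₀ (Finset.mem_range.2 hr₀), cnt_flatMap,
          Finset.sum_eq_single_of_mem i₀ (Finset.mem_range.2 hi₀), cnt_ren, if_pos ⟨rfl, rfl, rfl⟩]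
        · intro i _ hi
          rw [cnt_ren, if_neg]
          tauto
        · intro r _ hr
          rw [cnt_flatMap, Finset.sum_eq_zero]
          intro i _
          rw [cnt_ren, if_neg]
          tauto
      have h5 : ∑ i ∈ Finset.range m, cnt (r₀ :: i₀ :: c₀ :: x)
          ((List.range n).flatMap fun r => ren r i (c i r) (u' i r)) = 0 := by
        refine Finset.sum_eq_zero fun i _ => ?_
        rw [cnt_flatMap]
        refine Finset.sum_eq_zero fun r _ => ?_
        rw [cnt_ren, if_neg]
        rintro ⟨rfl, rfl, h6⟩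
        exact hne h6.symm
      rw [h4, h5, add_zero] at h3
      exact h3

/-! ### Values of words -/

/-- The value of a word. -/
def val {G : Type*} [Group G] (e : List ℕ → G) (w : CW) : G :=
  (w.map fun p => if p.2 = true then e p.1 else (e p.1)⁻¹).prod

section val

variable {G : Type*} [Group G] (e : List ℕ → G)

lemma val_nil : val e [] = 1 := rfl

lemma val_cons (p : List ℕ × Bool) (w : CW) :
    val e (p :: w) = (if p.2 = true then e p.1 else (e p.1)⁻¹) * val e w := by
  simp [val]

lemma val_append (u v : CW) : val e (u ++ v) = val e u * val e v := by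
  simp [val]

lemma val_flatMap (n : ℕ) (f : ℕ → CW) :
    val e ((List.range n).flatMap f) = ((List.range n).map fun j => val e (f j)).prod := by
  induction n with
  | zero => rfl
  | succ n ih =>
    rw [List.range_succ, List.flatMap_append, List.flatMap_singleton, val_append, ih,
      List.map_append, List.prod_append]
    simp

lemma val_cinv (w : CW) : val e (cinv w) = (val e w)⁻¹ := by
  induction w with
  | nil => simp [cinv, val]
  | cons p w ih =>
    have h : cinv (p :: w) = cinv w ++ [(p.1, !p.2)] := by simp [cinv]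
    rw [h, val_append, ih, val_cons, val_cons, val_nil, mul_inv_rev]
    rcases p with ⟨y, b⟩
    cases b <;> simp

lemma val_ren (r i c : ℕ) (w : CW) : val e (ren r i c w) = val (fun x => e (r :: i :: c :: x)) w := by
  simp [val, ren, List.map_map, Function.comp_def]

end val

open Pool.Agent.Helper87.SSP2

lemma prod_range_mem {G : Type*} [Group G] {N : Subgroup G} {n : ℕ} {f : ℕ → G}
    (h : ∀ j < n, f j ∈ N) : ((List.range n).map f).prod ∈ N :=
  Subgroup.list_prod_mem _ fun x hx => by
    obtain ⟨j, hj, rfl⟩ := List.mem_map.1 hx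
    exact h j (List.mem_range.1 hj)

lemma cls_prod_range {G : Type*} [Group G] {N : Subgroup G} {n : ℕ} {f : ℕ → G}
    (h : ∀ j < n, f j ∈ N) :
    cls N ((List.range n).map f).prod = ∑ j ∈ Finset.range n, cls N (f j) := by
  induction n with
  | zero => simp [cls_one]
  | succ n ih =>
    rw [List.range_succ, List.map_append, List.prod_append, cls_mul N
      (prod_range_mem fun j hj => h j (by omega)) (by simpa using h n (by omega)),
      ih fun j hj => h j (by omega), Finset.sum_range_succ]
    simp

/-- **Completeness of the languages.** -/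
theorem exists_acc.{u} {n m : ℕ} {A : ℕ → ℕ → Bool} (h : XCov n m A) (d : ℕ) :
    ∃ z, Acc (autD n m A d) [0] [0] z ∧ ∀ (G : Type u) [Group G] (K : ℕ → Subgroup G),
      (∀ j, K (j + 1) = ⁅K j, K j⁆) → ∀ e : List ℕ → G, (∀ x, e x ∈ K 0) → val e z ∈ K d := by
  classical
  obtain ⟨b, hb⟩ := h
  induction d with
  | zero =>
    refine ⟨[([], true)], ?_, fun G _ K _ e he => ?_⟩
    · rw [autD, acc_singleton]; simp
    · rw [val_cons, val_nil]; simpa using he []
  | succ d ih =>
    obtain ⟨z, hz, hval⟩ := ih
    refine ⟨((List.range n).flatMap fun r => (List.range m).flatMap fun i =>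
        ren r i (if b r ∧ A r i = true then 1 else 0) z) ++
      (List.range m).flatMap fun i => (List.range n).flatMap fun r =>
        ren r i (if b r ∧ A r i = true then 1 else 0) (cinv z), ?_, ?_⟩
    · rw [autD, step]
      refine acc_append.2 ⟨[0], _, _, acc_flatMap.2 ⟨fun _ => [0], _, rfl, rfl,
        fun r hr => acc_row_mk (b r) fun i hi => hz, rfl⟩,
        acc_flatMap.2 ⟨fun _ => [0], _, rfl, rfl, fun i hi => ?_, rfl⟩, rfl⟩
      obtain ⟨r₀, hr₀, h1, h2, h3⟩ := hb i hi
      refine acc_col_mk hr₀ h2 (fun r hr => ?_) fun r hr => acc_invAut.2 ⟨z, hz, rfl⟩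
      by_cases hr' : r = r₀
      · subst hr'; simp [h1, h2]
      · rw [if_neg hr', if_neg]
        rintro ⟨h4, h5⟩
        exact hr' (h3 r hr h4 h5)
    · intro G _ K hK e he
      have hZ : ∀ r i, val (fun x => e (r :: i :: (if b r ∧ A r i = true then 1 else 0) :: x)) z ∈
          K d := fun r i => hval G K hK _ fun x => he _
      set Z : ℕ → ℕ → G := fun r i =>
        val (fun x => e (r :: i :: (if b r ∧ A r i = true then 1 else 0) :: x)) z with hZdef
      have h1 : val e ((List.range n).flatMap fun r => (List.range m).flatMap fun i =>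
          ren r i (if b r ∧ A r i = true then 1 else 0) z) =
          ((List.range n).map fun r => ((List.range m).map fun i => Z r i).prod).prod := by
        rw [val_flatMap]
        congr 2
        funext r
        rw [val_flatMap]
        congr 2
        funext i
        rw [val_ren]
      have h2 : val e ((List.range m).flatMap fun i => (List.range n).flatMap fun r =>
          ren r i (if b r ∧ A r i = true then 1 else 0) (cinv z)) =
          ((List.range m).map fun i => ((List.range n).map fun r => (Z r i)⁻¹).prod).prod := by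
        rw [val_flatMap]
        congr 2
        funext r
        rw [val_flatMap]
        congr 2
        funext i
        rw [val_ren, val_cinv]
      have h3 : ∀ r < n, ((List.range m).map fun i => Z r i).prod ∈ K d := fun r _ =>
        prod_range_mem fun i _ => hZ r i
      have h4 : ∀ i < m, ((List.range n).map fun r => (Z r i)⁻¹).prod ∈ K d := fun i _ =>
        prod_range_mem fun r _ => inv_mem (hZ r i)
      rw [val_append, h1, h2, hK, ← cls_eq_zero_iff (K d) (mul_mem (prod_range_mem h3)
        (prod_range_mem h4)), cls_mul _ (prod_range_mem h3) (prod_range_mem h4),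
        cls_prod_range h3, cls_prod_range h4]
      have h5 : ∀ r, cls (K d) ((List.range m).map fun i => Z r i).prod =
          ∑ i ∈ Finset.range m, cls (K d) (Z r i) := fun r =>
        cls_prod_range fun i _ => hZ r i
      have h6 : ∀ i, cls (K d) ((List.range n).map fun r => (Z r i)⁻¹).prod =
          -∑ r ∈ Finset.range n, cls (K d) (Z r i) := fun i => by
        rw [cls_prod_range fun r _ => inv_mem (hZ r i), ← Finset.sum_neg_distrib]
        exact Finset.sum_congr rfl fun r _ => cls_inv _ _
      simp only [h5, h6]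
      rw [Finset.sum_neg_distrib, Finset.sum_comm, add_neg_cancel]

end Pool.Agent.Helper84.SG
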