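import Pool.Agent.Helper84.SG.PT

/-!
# The question for the group itself
-/

namespace Pool.Agent.Helper84.SG

open Pool.Agent.Helper87.SSP2 (DD KK GoodPair orb virtNilp_of_derivedSeries)
open Pool.Agent.Helper87.SSP (ev VirtNilp InP WP SSP ssp_inNP exists_word)
open Pool.Agent.Helper87.NP

/-- A finitely generated solvable group that is not virtually nilpotent has a bad pair. -/
theorem exists_bad_pair {G : Type*} [Group G] [Group.FG G] (hs : Group.IsSolvable G)
    (hG : ¬ VirtNilp G) : ∃ (t a : G) (d : ℕ), ¬ GoodPair t a ∧ KK t a d = ⊥ := by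
  by_contra hcon
  push Not at hcon
  obtain ⟨n, hn⟩ := hs.solvable
  refine hG (virtNilp_of_derivedSeries n G (fun t a => ?_) hn)
  by_contra hb
  refine hcon t a n hb ?_
  have h1 : ∀ j, KK t a j ≤ derivedSeries G j := by
    intro j
    induction j with
    | zero => rw [derivedSeries_zero]; exact le_top
    | succ j ih =>
      rw [KK, derivedSeries_succ]
      exact Subgroup.commutator_mono ih ih
  have h2 := h1 n
  rw [hn] at h2
  exact le_bot_iff.1 h2

/-- **The answer to Q1.** -/
theorem main_group {g : ℕ} {G : Type*} [Group G] (s : Fin g → G)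
    (hs : Subgroup.closure (Set.range s) = ⊤) (hsol : Group.IsSolvable G)
    (hG : ¬ VirtNilp G) (hWP : InP (WP s)) : IsNPComplete (SSP s) := by
  have hfg : Group.FG G := by
    rw [Group.fg_iff]
    exact ⟨Set.range s, hs, Set.finite_range s⟩
  obtain ⟨t, a, d, hb, hd⟩ := exists_bad_pair hsol hG
  obtain ⟨α, hα⟩ := exists_word hs a
  refine ⟨ssp_inNP hWP (w₀ := α) ?_, fun L hL => ssp_hard hb hd hs L hL⟩
  rw [hα]
  rintro rfl
  refine hb ⟨[0], [], by simp, by simp, ?_, ?_⟩
  · intro h
    have := (h 0).1 (by simp)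
    simp at this
  · simp [DD]

end Pool.Agent.Helper84.SG
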