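import Pool.Agent.Helper87.SSP.Ring

/-!
# A prime annihilator without cyclotomic elements

Project SG (MP_9292e0_lc), piece SG-1.

Let `T = Submonoid.closure {X ^ k - 1 | 1 ≤ k}`. Every element of `T` divides a flat polynomial, so
no element of `T` kills `m`. Among the annihilators `Ann (f m)` (`f : ℤ[X]`) that are disjoint from
`T` choose a maximal one (`ℤ[X]` is Noetherian). It is prime.
-/

namespace Pool.Agent.Helper84.SG

open Polynomial Pool.Agent.Helper87.SSP

lemma end_mul {M : Type*} [AddCommGroup M] (a b : AddMonoid.End M) (x : M) :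
    (a * b) x = a (b x) := rfl

lemma end_add {M : Type*} [AddCommGroup M] (a b : AddMonoid.End M) (x : M) :
    (a + b) x = a x + b x := rfl

lemma end_one {M : Type*} [AddCommGroup M] (x : M) : (1 : AddMonoid.End M) x = x := rfl

/-- The annihilator of `x`. -/
noncomputable def ann {M : Type*} [AddCommGroup M] (τ : AddMonoid.End M) (x : M) :
    Ideal ℤ[X] where
  carrier := {g | aeval τ g x = 0}
  add_mem' := by
    intro a b ha hb
    have ha' : aeval τ a x = 0 := ha
    have hb' : aeval τ b x = 0 := hb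
    change aeval τ (a + b) x = 0
    rw [map_add, end_add, ha', hb', add_zero]
  zero_mem' := by
    change aeval τ (0 : ℤ[X]) x = 0
    rw [map_zero]
    rfl
  smul_mem' := by
    intro c g hg
    have hg' : aeval τ g x = 0 := hg
    change aeval τ (c * g) x = 0
    rw [map_mul, end_mul, hg', map_zero]

lemma mem_ann {M : Type*} [AddCommGroup M] (τ : AddMonoid.End M) (x : M) (g : ℤ[X]) :
    g ∈ ann τ x ↔ aeval τ g x = 0 := Iff.rfl

lemma mem_ann_apply {M : Type*} [AddCommGroup M] (τ : AddMonoid.End M) (x : M) (g s : ℤ[X]) :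
    g ∈ ann τ (aeval τ s x) ↔ g * s ∈ ann τ x := by
  rw [mem_ann, mem_ann, map_mul, end_mul]

lemma ann_le_apply {M : Type*} [AddCommGroup M] (τ : AddMonoid.End M) (x : M) (s : ℤ[X]) :
    ann τ x ≤ ann τ (aeval τ s x) := by
  intro g hg
  rw [mem_ann_apply]
  exact Ideal.mul_mem_right s _ hg

/-- The monoid generated by the polynomials `X ^ k - 1`. -/
noncomputable def cyc : Submonoid ℤ[X] := Submonoid.closure {p | ∃ k : ℕ, 1 ≤ k ∧ p = X ^ k - 1}

lemma flat_mul (Q : ℤ[X]) (hQ : Flat Q) (n : ℕ) (hn : Q.natDegree < n) :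
    Flat (Q * (X ^ n - 1)) := by
  refine ⟨mul_ne_zero hQ.1 ?_, ?_⟩
  · intro h0
    have h1 := congrArg (fun p => Polynomial.coeff p 0) h0
    simp only [coeff_sub, coeff_X_pow, coeff_one_zero, coeff_zero] at h1
    rw [if_neg (by omega)] at h1
    norm_num at h1
  · intro i
    rw [mul_sub, mul_one, coeff_sub, coeff_mul_X_pow']
    by_cases hi : n ≤ i
    · rw [if_pos hi, coeff_eq_zero_of_natDegree_lt (lt_of_lt_of_le hn hi), sub_zero]
      exact hQ.2 _
    · rw [if_neg hi, zero_sub, abs_neg]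
      exact hQ.2 _

lemma exists_flat_of_mem (t : ℤ[X]) (ht : t ∈ cyc) : ∃ Q, Flat Q ∧ t ∣ Q := by
  unfold cyc at ht
  induction ht using Submonoid.closure_induction_left with
  | one =>
    refine ⟨1, ⟨one_ne_zero, fun i => ?_⟩, dvd_refl _⟩
    rw [coeff_one]
    split_ifs <;> simp
  | mul_left x hx y _ ih =>
    obtain ⟨k, hk, rfl⟩ := hx
    obtain ⟨Q, hQ, hyQ⟩ := ih
    refine ⟨Q * (X ^ (k * (Q.natDegree + 1)) - 1), flat_mul Q hQ _ ?_, ?_⟩
    · nlinarith
    · rw [mul_comm]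
      refine mul_dvd_mul hyQ ?_
      rw [pow_mul]
      exact sub_one_dvd_pow_sub_one _ _

theorem exists_prime_ann {M : Type*} [AddCommGroup M] (τ : AddMonoid.End M) (m : M)
    (h : ∀ P : ℤ[X], Flat P → aeval τ P m ≠ 0) :
    ∃ (f : ℤ[X]) (P : Ideal ℤ[X]), P.IsPrime ∧ (∀ k : ℕ, 1 ≤ k → (X ^ k - 1 : ℤ[X]) ∉ P) ∧
      ∀ g : ℤ[X], aeval τ g (aeval τ f m) = 0 ↔ g ∈ P := by
  have hm : ∀ t ∈ cyc, t ∉ ann τ m := by
    intro t ht htm
    obtain ⟨Q, hQ, c, hc⟩ := exists_flat_of_mem t ht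
    refine h Q hQ ?_
    rw [hc, mul_comm]
    exact Ideal.mul_mem_left _ c htm
  obtain ⟨P, ⟨⟨f, hf⟩, hP⟩, hmax⟩ := set_has_maximal_iff_noetherian.mpr
    (inferInstance : IsNoetherian ℤ[X] ℤ[X])
    {I : Ideal ℤ[X] | (∃ f : ℤ[X], I = ann τ (aeval τ f m)) ∧ ∀ t ∈ cyc, t ∉ I}
    ⟨ann τ m, ⟨1, by rw [map_one, end_one]⟩, hm⟩
  subst hf
  have key : ∀ g s : ℤ[X], g ∉ ann τ (aeval τ f m) → g * s ∈ ann τ (aeval τ f m) →
      ∃ t ∈ cyc, t * s ∈ ann τ (aeval τ f m) := by
    intro g s hg hgs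
    by_contra hc
    push Not at hc
    refine hmax (ann τ (aeval τ s (aeval τ f m))) ⟨⟨s * f, ?_⟩, ?_⟩ ?_
    · rw [map_mul, end_mul]
    · intro t ht htm
      rw [mem_ann_apply] at htm
      exact hc t ht htm
    · refine lt_of_le_of_ne (ann_le_apply τ _ s) ?_
      intro he
      apply hg
      rw [he, mem_ann_apply]
      exact hgs
  refine ⟨f, ann τ (aeval τ f m), ?_, ?_, fun g => Iff.rfl⟩
  · refine ⟨?_, ?_⟩
    · intro he
      exact hP 1 (one_mem _) (by rw [he]; exact Submodule.mem_top)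
    · intro x y hxy
      by_contra hc
      push Not at hc
      obtain ⟨s, hs, hsy⟩ := key x y hc.1 hxy
      obtain ⟨s', hs', hss⟩ := key y s hc.2 (by rw [mul_comm]; exact hsy)
      exact hP _ (mul_mem hs' hs) hss
  · intro k hk
    exact hP _ (Submonoid.subset_closure ⟨k, hk, rfl⟩)

end Pool.Agent.Helper84.SG
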