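import Pool.Agent.Helper84.SG.Gad
import Pool.Agent.Helper84.SG.PrimeAnn
import Pool.Agent.Helper84.SG.Indep
import Pool.Agent.Helper87.SSP2.Levels

/-!
# Independent cells from a bad pair
-/

namespace Pool.Agent.Helper84.SG

open Polynomial Subgroup Pool.Agent.Helper87.SSP Pool.Agent.Helper87.SSP2

variable {G : Type*} [Group G]

section act

variable {N : Subgroup G} {t : G} (hN : ∀ x ∈ N, t * x * t⁻¹ ∈ N)

/-- Conjugation by `t` on `N`. -/
def conjN : N →* N :=
  ((MulAut.conj t).toMonoidHom.comp N.subtype).codRestrict N fun x => hN x x.2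

/-- Conjugation by `t` on the abelianization of `N`. -/
noncomputable def tau : AddMonoid.End (AbS N) :=
  MonoidHom.toAdditive (Abelianization.map (conjN hN))

lemma tau_cls {x : G} (hx : x ∈ N) : tau hN (cls N x) = cls N (t * x * t⁻¹) := by
  rw [cls_of_mem N hx, cls_of_mem N (hN x hx)]
  rfl

include hN in
lemma pow_mem' (p : ℕ) {x : G} (hx : x ∈ N) : t ^ p * x * (t ^ p)⁻¹ ∈ N := by
  induction p with
  | zero => simpa using hx
  | succ p ih =>
    have := hN _ ih
    rw [pow_succ']
    convert this using 1
    group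

lemma tau_pow_cls (p : ℕ) {x : G} (hx : x ∈ N) :
    (tau hN ^ p) (cls N x) = cls N (t ^ p * x * (t ^ p)⁻¹) := by
  induction p with
  | zero => simp
  | succ p ih =>
    rw [pow_succ']
    show tau hN ((tau hN ^ p) (cls N x)) = _
    rw [ih, tau_cls hN (pow_mem' hN p hx)]
    congr 1
    rw [pow_succ']
    group

lemma Phi_eq {b : G} (hb : b ∈ N) (L : ℕ) (Q : ℤ[X]) :
    Phi N t b L Q = aeval (tau hN) (expand ℤ L Q) (cls N b) := by
  induction Q using Polynomial.induction_on' with
  | add p q hp hq => rw [map_add, map_add, map_add, hp, hq]; rfl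
  | monomial p c =>
    have h1 : (monomial p c : ℤ[X]) = c • X ^ p := by
      rw [zsmul_eq_mul, X_pow_eq_monomial, ← C_mul_X_pow_eq_monomial, ← C_mul_X_pow_eq_monomial]
      simp
    rw [h1, map_smul, Phi_X_pow, map_zsmul, map_zsmul, map_pow, expand_X, ← pow_mul, map_pow,
      aeval_X]
    show _ = c • ((tau hN ^ (L * p)) (cls N b))
    rw [tau_pow_cls hN _ hb]
    rfl

end act

/-- A flat polynomial does not kill a bad element. -/
lemma not_flat {t a : G} (hb : ¬ GoodPair t a) (hN : ∀ x ∈ orb t a, t * x * t⁻¹ ∈ orb t a)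
    (P : ℤ[X]) (hP : Flat P) : aeval (tau hN) P (cls (orb t a) a) ≠ 0 := by
  intro h0
  have ha : a ∈ orb t a := a_mem t a
  have hsum : ∀ Q : ℤ[X], aeval (tau hN) Q (cls (orb t a) a) =
      ∑ i ∈ Finset.range (Q.natDegree + 1), Q.coeff i • cls (orb t a) (DD t a i) := by
    intro Q
    have h1 := Phi_eq hN ha 1 Q
    rw [expand_one, Phi, Polynomial.lsum_apply, Polynomial.sum_over_range _ (by simp)] at h1
    rw [← h1]
    refine Finset.sum_congr rfl fun i _ => ?_
    rw [LinearMap.toSpanSingleton_apply, one_mul]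
  rw [hsum] at h0
  set D := P.natDegree with hD
  set Xs := (List.range (D + 1)).filter fun i => decide (P.coeff i = 1) with hXs
  set Ys := (List.range (D + 1)).filter fun i => decide (P.coeff i = -1) with hYs
  have key : ∀ n : ℕ, ((((List.range n).filter fun i => decide (P.coeff i = 1)).map fun k =>
        cls (orb t a) (DD t a k)).sum -
      (((List.range n).filter fun i => decide (P.coeff i = -1)).map fun k =>
        cls (orb t a) (DD t a k)).sum) =
      ∑ i ∈ Finset.range n, P.coeff i • cls (orb t a) (DD t a i) := by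
    intro n
    induction n with
    | zero => exact sub_self _
    | succ n ih =>
      rw [List.range_succ, List.filter_append, List.filter_append, List.map_append,
        List.map_append, List.sum_append, List.sum_append, Finset.sum_range_succ, ← ih]
      have h3 := hP.2 n
      rw [abs_le] at h3
      have h4 : P.coeff n = -1 ∨ P.coeff n = 0 ∨ P.coeff n = 1 := by omega
      generalize (((List.range n).filter fun i => decide (P.coeff i = 1)).map fun k =>
        cls (orb t a) (DD t a k)).sum = u
      generalize (((List.range n).filter fun i => decide (P.coeff i = -1)).map fun k =>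
        cls (orb t a) (DD t a k)).sum = v
      rcases h4 with h4 | h4 | h4
      · have e1 : ([n].filter fun i => decide (P.coeff i = 1)) = [] := by simp [h4]
        have e2 : ([n].filter fun i => decide (P.coeff i = -1)) = [n] := by simp [h4]
        rw [e1, e2, h4, List.map_nil, List.map_cons, List.map_nil, List.sum_nil, List.sum_cons,
          List.sum_nil, neg_one_smul]
        abel
      · have e1 : ([n].filter fun i => decide (P.coeff i = 1)) = [] := by simp [h4]
        have e2 : ([n].filter fun i => decide (P.coeff i = -1)) = [] := by simp [h4]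
        rw [e1, e2, h4, List.map_nil, List.sum_nil, zero_smul]
        abel
      · have e1 : ([n].filter fun i => decide (P.coeff i = 1)) = [n] := by simp [h4]
        have e2 : ([n].filter fun i => decide (P.coeff i = -1)) = [] := by simp [h4]
        rw [e1, e2, h4, List.map_nil, List.map_cons, List.map_nil, List.sum_nil, List.sum_cons,
          List.sum_nil, one_smul]
        abel
  have h5 := key (D + 1)
  rw [h0, sub_eq_zero] at h5
  have h6 := fun k => bad_sum hb (Xs := Xs) (Ys := Ys) (List.nodup_range.filter _)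
    (List.nodup_range.filter _) h5 k
  apply hP.1
  ext i
  rw [coeff_zero]
  by_contra hne
  have h3 := hP.2 i
  rw [abs_le] at h3
  have hi : i < D + 1 := Nat.lt_succ_of_le (le_natDegree_of_ne_zero hne)
  have h4 : P.coeff i = -1 ∨ P.coeff i = 1 := by omega
  have h7 := h6 i
  simp only [hXs, hYs, List.mem_filter, List.mem_range, hi, true_and, decide_eq_true_eq] at h7
  omega

/-- **Independent cells.** -/
theorem exists_ind {t a : G} (hb : ¬ GoodPair t a) :
    ∃ (b : G) (k κ : ℕ), Ind (orb t a) t b k κ := by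
  have hN : ∀ x ∈ orb t a, t * x * t⁻¹ ∈ orb t a := fun x hx =>
    conj_mem_KK (j := 0) (t_mem_normalizer t a 0) hx
  obtain ⟨f, P, hP, hX, hann⟩ := exists_prime_ann (tau hN) (cls (orb t a) a)
    fun P hP => not_flat hb hN P hP
  obtain ⟨b, hbN, hbc⟩ := exists_cls (orb t a) (aeval (tau hN) f (cls (orb t a) a))
  simp only [← hbc] at hann
  have hX0 : (X : ℤ[X]) ∉ P := by
    intro h
    rw [← hann, aeval_X, tau_cls hN hbN, cls_eq_zero_iff _ (hN b hbN)] at h
    have h1 : b ∈ ⁅orb t a, orb t a⁆ :=
      (mem_normalizer_iff.1 (t_mem_normalizer t a 1) b).2 h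
    rw [← cls_eq_zero_iff _ hbN] at h1
    apply hP.ne_top
    rw [Ideal.eq_top_iff_one, ← hann, h1, map_zero]
  obtain ⟨κ, hκ, hind⟩ := indep_of_prime P hX0 hX
  obtain ⟨g, hg⟩ := (IsPrincipalIdealRing.principal (P.comap (C : ℤ →+* ℤ[X]))).principal
  have hk : ∀ z : ℤ, (C z : ℤ[X]) ∈ P ↔ ((g.natAbs : ℕ) : ℤ) ∣ z := by
    intro z
    rw [← Ideal.mem_comap, hg]
    show z ∈ Ideal.span {g} ↔ _
    rw [Ideal.mem_span_singleton, Int.natAbs_dvd]
  refine ⟨b, g.natAbs, κ, ?_, hκ, hbN, hN, fun p hp => bad_pow hb hp, ?_⟩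
  · intro h
    have h1 := (hk 1).2 (by rw [h]; simp)
    apply hP.ne_top
    rw [Ideal.eq_top_iff_one]
    simpa using h1
  · intro B L hL Q hQ h0 i
    rw [← hk]
    refine hind B L hL Q hQ ?_ i
    rw [← hann, ← Phi_eq hN hbN, h0]

end Pool.Agent.Helper84.SG
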