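import Pool.Agent.Helper84.SG.Inst
import Pool.Agent.Helper87.SSP.Final

/-!
# Polynomial-time computability and the main theorem
-/

open Function Turing Computability
open Pool.Agent.Helper91.PolyTime Pool.Agent.Helper91.Reduction Pool.Agent.Helper91.Verifier
open Pool.Agent.Helper87.NP
open Pool.Agent.Helper86.XC (Cover exists_cover)

namespace Pool.Agent.Helper84.SG

open Pool.Agent.Helper87.SSP2 (DD KK GoodPair orb cls exists_bad)
open Pool.Agent.Helper87.SSP (Word ev winv wpow wD VirtNilp encodeWord encodeWords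
  encodeWords_cons decWords decWords_encode InP WP SSP inc cover_iff_inc ptf_inc ptf_winv ptf_wD
  ptf_wpow ptf_encodeWords ssp_inNP exists_word)

section ptime

variable {α : Type*} [PEnc α]

lemma ptf_cinv {w : α → CW} (hw : PTF w) : PTF (fun a => cinv (w a)) := by
  unfold cinv
  exact PTF.reverse (PTF.map (f := fun _ (p : List ℕ × Bool) => (p.1, !p.2)) hw
    (PTF.pair PTF.id.snd.fst (PTF.not PTF.id.snd.snd)))

lemma ptf_invAut {B : α → Aut} (hB : PTF B) : PTF (fun a => invAut (B a)) := by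
  unfold invAut
  refine PTF.reverse (PTF.map (f := fun _ (l : List Tr) => l.map fun tr =>
    (tr.2.1, tr.1, cinv tr.2.2)) hB ?_)
  exact PTF.map (α := α × List Tr) (f := fun _ (tr : Tr) => (tr.2.1, tr.1, cinv tr.2.2))
    PTF.id.snd (PTF.pair PTF.id.snd.snd.fst (PTF.pair PTF.id.snd.fst (ptf_cinv
      PTF.id.snd.snd.snd)))

lemma ptf_ren {r i c : α → ℕ} {w : α → CW} (hr : PTF r) (hi : PTF i) (hc : PTF c) (hw : PTF w) :
    PTF (fun a => ren (r a) (i a) (c a) (w a)) := by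
  unfold ren
  exact PTF.map (f := fun a (p : List ℕ × Bool) => (r a :: i a :: c a :: p.1, p.2)) hw
    (PTF.pair (PTF.cons (hr.comp PTF.id.fst) (PTF.cons (hi.comp PTF.id.fst)
      (PTF.cons (hc.comp PTF.id.fst) PTF.id.snd.fst))) PTF.id.snd.snd)

lemma ptf_mid {r i : α → ℕ} {Θ : α → List (ℕ × ℕ × ℕ)} {B : α → Aut} (hr : PTF r) (hi : PTF i)
    (hΘ : PTF Θ) (hB : PTF B) : PTF (fun a => mid (r a) (i a) (Θ a) (B a)) := by
  unfold mid
  refine PTF.map (f := fun a (l : List Tr) => (Θ a).flatMap fun θ => l.map fun tr =>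
    (θ.1 :: θ.2.1 :: θ.2.2 :: tr.1, θ.1 :: θ.2.1 :: θ.2.2 :: tr.2.1,
      ren (r a) (i a) θ.2.1 tr.2.2)) hB ?_
  refine PTF.flatMap (α := α × List Tr) (l := fun p => Θ p.1) (f := fun p θ => p.2.map fun tr =>
    (θ.1 :: θ.2.1 :: θ.2.2 :: tr.1, θ.1 :: θ.2.1 :: θ.2.2 :: tr.2.1,
      ren (r p.1) (i p.1) θ.2.1 tr.2.2)) (hΘ.comp PTF.id.fst) ?_
  refine PTF.map (α := (α × List Tr) × (ℕ × ℕ × ℕ)) (l := fun p => p.1.2)
    (f := fun p (tr : Tr) => (p.2.1 :: p.2.2.1 :: p.2.2.2 :: tr.1,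
      p.2.1 :: p.2.2.1 :: p.2.2.2 :: tr.2.1, ren (r p.1.1) (i p.1.1) p.2.2.1 tr.2.2))
    PTF.id.fst.snd ?_
  have h1 : PTF (fun q : ((α × List Tr) × (ℕ × ℕ × ℕ)) × Tr => q.1.2.1) := PTF.id.fst.snd.fst
  have h2 : PTF (fun q : ((α × List Tr) × (ℕ × ℕ × ℕ)) × Tr => q.1.2.2.1) :=
    PTF.id.fst.snd.snd.fst
  have h3 : PTF (fun q : ((α × List Tr) × (ℕ × ℕ × ℕ)) × Tr => q.1.2.2.2) :=
    PTF.id.fst.snd.snd.snd
  exact PTF.pair (PTF.cons h1 (PTF.cons h2 (PTF.cons h3 PTF.id.snd.fst)))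
    (PTF.pair (PTF.cons h1 (PTF.cons h2 (PTF.cons h3 PTF.id.snd.snd.fst)))
      (ptf_ren (hr.comp PTF.id.fst.fst.fst) (hi.comp PTF.id.fst.fst.fst) h2 PTF.id.snd.snd.snd))

lemma ptf_pass {r i : α → ℕ} {Θ : α → List (ℕ × ℕ × ℕ)} {B : α → Aut} (hr : PTF r) (hi : PTF i)
    (hΘ : PTF Θ) (hB : PTF B) : PTF (fun a => pass (r a) (i a) (Θ a) (B a)) := by
  unfold pass
  have h1 : PTF (fun p : α × (ℕ × ℕ × ℕ) => p.2.1 :: p.2.2.1 :: p.2.2.2 :: [0]) :=
    PTF.cons PTF.id.snd.fst (PTF.cons PTF.id.snd.snd.fst (PTF.cons PTF.id.snd.snd.snd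
      (PTF.const [0])))
  refine PTF.cons (PTF.map (f := fun _ (θ : ℕ × ℕ × ℕ) => ([θ.1],
      θ.1 :: θ.2.1 :: θ.2.2 :: [0], ([] : CW))) hΘ
    (PTF.pair (PTF.cons PTF.id.snd.fst (PTF.const [])) (PTF.pair h1 (PTF.const []))))
    (PTF.append (ptf_mid hr hi hΘ hB) (PTF.cons (PTF.map (f := fun _ (θ : ℕ × ℕ × ℕ) =>
      (θ.1 :: θ.2.1 :: θ.2.2 :: [0], [θ.2.2], ([] : CW))) hΘ
      (PTF.pair h1 (PTF.pair (PTF.cons PTF.id.snd.snd.snd (PTF.const [])) (PTF.const []))))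
      (PTF.const [])))

lemma ptf_bool_eq_true {b : α → Bool} (hb : PTF b) : PTF (fun a => decide (b a = true)) :=
  PTF.eq hb (PTF.const true)

lemma ptf_thRow {A : α → Bool} (hA : PTF A) :
    PTF (fun a => ([(0, 0, 0), (1, if A a = true then 1 else 0, 1)] : List (ℕ × ℕ × ℕ))) :=
  PTF.cons (PTF.const _) (PTF.cons (PTF.pair (PTF.const 1) (PTF.pair
    (PTF.ite (ptf_bool_eq_true hA) (PTF.const 1) (PTF.const 0)) (PTF.const 1))) (PTF.const []))

lemma ptf_thCol {A : α → Bool} (hA : PTF A) :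
    PTF (fun a => ((0, 0, 0) :: (1, 0, 1) :: (if A a = true then [(0, 1, 1)] else []) :
      List (ℕ × ℕ × ℕ))) :=
  PTF.cons (PTF.const _) (PTF.cons (PTF.const _) (PTF.ite (ptf_bool_eq_true hA) (PTF.const _)
    (PTF.const _)))

lemma ptf_row {m r : α → ℕ} {A : α → ℕ → ℕ → Bool} {B : α → Aut} (hm : PTF m) (hr : PTF r)
    (hA : PTF (fun p : (α × ℕ) × ℕ => A p.1.1 p.1.2 p.2)) (hB : PTF B) :
    PTF (fun a => row (m a) (A a) (B a) (r a)) := by
  unfold row
  refine PTF.cons (PTF.const _) (PTF.append ?_ (PTF.const _))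
  refine PTF.flatMap (f := fun a i => pass (r a) i (thRow (A a) (r a) i) (B a)) (PTF.range hm) ?_
  refine ptf_pass (hr.comp PTF.id.fst) PTF.id.snd ?_ (hB.comp PTF.id.fst)
  exact ptf_thRow (hA.comp (PTF.pair (PTF.pair PTF.id.fst (hr.comp PTF.id.fst)) PTF.id.snd))

lemma ptf_col {n i : α → ℕ} {A : α → ℕ → ℕ → Bool} {B : α → Aut} (hn : PTF n) (hi : PTF i)
    (hA : PTF (fun p : (α × ℕ) × ℕ => A p.1.1 p.1.2 p.2)) (hB : PTF B) :
    PTF (fun a => col (n a) (A a) (B a) (i a)) := by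
  unfold col
  refine PTF.append ?_ (PTF.const _)
  refine PTF.flatMap (f := fun a r => pass r (i a) (thCol (A a) r (i a)) (B a)) (PTF.range hn) ?_
  refine ptf_pass PTF.id.snd (hi.comp PTF.id.fst) ?_ (hB.comp PTF.id.fst)
  exact ptf_thCol (hA.comp (PTF.pair (PTF.pair PTF.id.fst PTF.id.snd) (hi.comp PTF.id.fst)))

lemma ptf_step {n m : α → ℕ} {A : α → ℕ → ℕ → Bool} {B : α → Aut} (hn : PTF n) (hm : PTF m)
    (hA : PTF (fun p : (α × ℕ) × ℕ => A p.1.1 p.1.2 p.2)) (hB : PTF B) :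
    PTF (fun a => step (n a) (m a) (A a) (B a)) := by
  unfold step
  have hA' : PTF (fun p : ((α × ℕ) × ℕ) × ℕ => A p.1.1.1 p.1.2 p.2) :=
    hA.comp (PTF.pair (PTF.pair PTF.id.fst.fst.fst PTF.id.fst.snd) PTF.id.snd)
  refine PTF.append ?_ ?_
  · refine PTF.flatMap (f := fun a r => row (m a) (A a) (B a) r) (PTF.range hn) ?_
    exact ptf_row (A := fun p : α × ℕ => A p.1) (hm.comp PTF.id.fst) PTF.id.snd hA'
      (hB.comp PTF.id.fst)
  · refine PTF.flatMap (f := fun a i => col (n a) (A a) (invAut (B a)) i) (PTF.range hm) ?_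
    exact ptf_col (A := fun p : α × ℕ => A p.1) (hn.comp PTF.id.fst) PTF.id.snd hA'
      (ptf_invAut (hB.comp PTF.id.fst))

lemma ptf_autD {n m : α → ℕ} {A : α → ℕ → ℕ → Bool} (hn : PTF n) (hm : PTF m)
    (hA : PTF (fun p : (α × ℕ) × ℕ => A p.1.1 p.1.2 p.2)) (d : ℕ) :
    PTF (fun a => autD (n a) (m a) (A a) d) := by
  induction d with
  | zero => exact PTF.const _
  | succ d ih => exact ptf_step hn hm hA ih

lemma ptf_lay {B : α → Aut} {j : α → ℕ} (hB : PTF B) (hj : PTF j) :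
    PTF (fun a => lay (B a) (j a)) := ptf_getD (PTF.getElem? hj hB) (PTF.const [])

lemma ptf_items {B : α → Aut} (hB : PTF B) : PTF (fun a => items (B a)) := by
  unfold items
  refine PTF.flatMap (f := fun a j => (lay (B a) j).map fun tr => (j, tr))
    (PTF.range (PTF.length hB)) ?_
  exact PTF.map (α := α × ℕ) (l := fun p => lay (B p.1) p.2) (f := fun p tr => (p.2, tr))
    (ptf_lay (hB.comp PTF.id.fst) PTF.id.snd) (PTF.pair PTF.id.fst.snd PTF.id.snd)

lemma ptf_body {j : α → ℕ} {tr : α → Tr} (hj : PTF j) (htr : PTF tr) :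
    PTF (fun a => body (j a) (tr a)) := by
  unfold body
  refine PTF.cons (PTF.pair (PTF.cons (PTF.const 0) (PTF.cons hj htr.fst)) (PTF.const false))
    (PTF.append ?_ ?_)
  · exact PTF.map (f := fun _ (p : List ℕ × Bool) => (1 :: p.1, p.2)) htr.snd.snd
      (PTF.pair (PTF.cons (PTF.const 1) PTF.id.snd.fst) PTF.id.snd.snd)
  · exact PTF.cons (PTF.pair (PTF.cons (PTF.const 0) (PTF.cons (PTF.succ hj) htr.snd.fst))
      (PTF.const true)) (PTF.const [])

lemma ptf_letters {B : α → Aut} (hB : PTF B) : PTF (fun a => letters (B a)) := by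
  unfold letters
  refine PTF.cons (PTF.const _) (PTF.cons (PTF.cons (PTF.const 0) (PTF.cons (PTF.length hB)
    (PTF.const [0]))) ?_)
  refine PTF.flatMap (f := fun _ (x : ℕ × Tr) => (body x.1 x.2).map Prod.fst) (ptf_items hB) ?_
  exact PTF.map (α := α × (ℕ × Tr)) (l := fun p => body p.2.1 p.2.2) (f := fun _ p => p.1)
    (ptf_body PTF.id.snd.fst PTF.id.snd.snd) PTF.id.snd.fst

lemma ptf_size {B : α → Aut} (hB : PTF B) : PTF (fun a => size (B a)) := by
  unfold size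
  exact PTF.add (PTF.length (PTF.flatMap (f := fun _ (x : ℕ × Tr) => body x.1 x.2)
    (ptf_items hB) (ptf_body PTF.id.snd.fst PTF.id.snd.snd))) (PTF.const 2)

lemma ptf_LL (κ : ℕ) {B : α → Aut} (hB : PTF B) : PTF (fun a => LL κ (B a)) :=
  PTF.mul (PTF.const κ) (PTF.succ (ptf_size hB))

lemma ptf_MM {B : α → Aut} (hB : PTF B) : PTF (fun a => MM (B a)) :=
  PTF.succ (PTF.mul (PTF.const 2) (PTF.length hB))

lemma ptf_idxU {U : α → List (List ℕ)} {x : α → List ℕ} (hU : PTF U) (hx : PTF x) :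
    PTF (fun a => idxU (U a) (x a)) := by
  unfold idxU
  refine ptf_getD (PTF.head? (PTF.filter (f := fun a i => decide ((U a)[i]? = some (x a)))
    (PTF.range (PTF.length hU)) ?_)) (PTF.const 0)
  exact PTF.eq (PTF.getElem? PTF.id.snd (hU.comp PTF.id.fst)) (PTF.some (hx.comp PTF.id.fst))

variable {g : ℕ}

lemma ptf_wcell (τ β : Word g) (κ : ℕ) {B : α → Aut} {x : α → List ℕ} (hB : PTF B)
    (hx : PTF x) : PTF (fun a => wcell τ β κ (B a) (x a)) :=
  ptf_wD τ β (PTF.mul (ptf_LL κ hB) (PTF.mul (ptf_MM hB) (ptf_idxU (ptf_letters hB) hx)))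

lemma ptf_wgel (τ β : Word g) (κ : ℕ) {B : α → Aut} {x : α → ℕ × Tr} (hB : PTF B)
    (hx : PTF x) : PTF (fun a => wgel τ β κ (B a) (x a)) := by
  unfold wgel
  refine PTF.append (ptf_winv (ptf_wpow τ (PTF.mul (ptf_LL κ hB) hx.fst)))
    (PTF.append ?_ (ptf_wpow τ (PTF.mul (ptf_LL κ hB) (PTF.succ hx.fst))))
  unfold wval
  refine PTF.flatMap (f := fun a (p : List ℕ × Bool) => if p.2 = true then wcell τ β κ (B a) p.1
    else winv (wcell τ β κ (B a) p.1)) (ptf_body hx.fst hx.snd) ?_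
  have h1 : PTF (fun p : α × (List ℕ × Bool) => wcell τ β κ (B p.1) p.2.1) :=
    ptf_wcell τ β κ (hB.comp PTF.id.fst) PTF.id.snd.fst
  exact PTF.ite (ptf_bool_eq_true PTF.id.snd.snd) h1 (ptf_winv h1)

lemma ptf_wtar (τ β : Word g) (κ : ℕ) {B : α → Aut} (hB : PTF B) :
    PTF (fun a => wtar τ β κ (B a)) := by
  unfold wtar
  refine PTF.append (ptf_winv (ptf_wcell τ β κ hB (PTF.const _))) (PTF.append
    (ptf_wcell τ β κ hB (PTF.cons (PTF.const 0) (PTF.cons (PTF.length hB) (PTF.const [0]))))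
    (ptf_wpow τ (PTF.mul (ptf_LL κ hB) (PTF.length hB))))

/-- The instance. -/
def inst (τ β : Word g) (κ : ℕ) (B : Aut) : List (Word g) :=
  wtar τ β κ B :: (items B).map (wgel τ β κ B)

lemma ptf_inst (τ β : Word g) (κ : ℕ) {B : α → Aut} (hB : PTF B) :
    PTF (fun a => inst τ β κ (B a)) := by
  unfold inst
  exact PTF.cons (ptf_wtar τ β κ hB) (PTF.map (f := fun a it => wgel τ β κ (B a) it)
    (ptf_items hB) (ptf_wgel τ β κ (hB.comp PTF.id.fst) PTF.id.snd))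

end ptime

variable {g : ℕ} {G : Type*} [Group G]

/-- **NP-hardness.** -/
theorem ssp_hard {s : Fin g → G} {t a : G} (hb : ¬ GoodPair t a) {d : ℕ} (hd : KK t a d = ⊥)
    (hs : Subgroup.closure (Set.range s) = ⊤) (L : Set (List Bool)) (hL : InNP L) :
    Reduces L (SSP s) := by
  obtain ⟨b, k, κ, h⟩ := exists_ind hb
  obtain ⟨τ, hτ⟩ := exists_word hs t
  obtain ⟨β, hβ⟩ := exists_word hs b
  obtain ⟨p, R, hR, hRL⟩ := hL
  obtain ⟨E, hE, hdec, S, U, hS, hU, hcov⟩ := exists_cover p R hR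
  refine ⟨fun x => encodeWords (inst τ β κ
    (autD (S x).length (U x).length (inc (S x) (U x)) d)), ?_, fun x => ?_⟩
  · refine tm2_of_ptf_str ?_
    have hS' : PTF (fun x : Str => S x.toList) := hS.comp (PTF.strToList PTF.id)
    have hU' : PTF (fun x : Str => U x.toList) := hU.comp (PTF.strToList PTF.id)
    have hB : PTF (fun x : Str => autD (S x.toList).length (U x.toList).length
        (inc (S x.toList) (U x.toList)) d) := by
      refine ptf_autD (A := fun x : Str => inc (S x.toList) (U x.toList)) (PTF.length hS')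
        (PTF.length hU') ?_ d
      exact ptf_inc (hS'.comp PTF.id.fst.fst) (hU'.comp PTF.id.fst.fst) PTF.id.fst.snd
        PTF.id.snd
    exact PTF.strOfList (ptf_encodeWords (ptf_inst τ β κ hB))
  · rw [hRL, hcov, cover_iff_inc]
    show XCov (S x).length (U x).length (inc (S x) (U x)) ↔ _
    rw [← gadget s h hd hτ hβ]
    beta_reduce
    generalize autD (S x).length (U x).length (inc (S x) (U x)) d = B
    constructor
    · rintro ⟨l, h1, h2⟩
      exact ⟨_, _, rfl, l, h1, h2⟩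
    · rintro ⟨w, l, h1, l', h2, h3⟩
      rw [← encodeWords_cons] at h1
      have h4 := decWords_encode (inst τ β κ B)
      rw [h1, decWords_encode] at h4
      obtain ⟨rfl, rfl⟩ : w = wtar τ β κ B ∧ l = (items B).map (wgel τ β κ B) := by
        simpa [inst] using h4
      exact ⟨l', h2, h3⟩

/-- **Main theorem.** -/
theorem main (s : Fin g → G) (hs : Subgroup.closure (Set.range s) = ⊤)
    (hWP : InP (WP s)) (H : Subgroup G) (hfg : H.FG) (hsol : Group.IsSolvable H)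
    (hH : ¬ VirtNilp H) : IsNPComplete (SSP s) := by
  obtain ⟨t, a, d, hb, hd⟩ := exists_bad H hfg hsol hH
  obtain ⟨α, hα⟩ := exists_word hs a
  refine ⟨ssp_inNP hWP (w₀ := α) ?_, fun L hL => ssp_hard hb hd hs L hL⟩
  rw [hα]
  rintro rfl
  refine hb ⟨[0], [], by simp, by simp, ?_, ?_⟩
  · intro h
    have := (h 0).1 (by simp)
    simp at this
  · simp [DD]

end Pool.Agent.Helper84.SG
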