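import Pool.Agent.Helper84.SG.Lang

/-!
# Selections and paths
-/

namespace Pool.Agent.Helper84.SG

/-- The word of a transition of layer `j`. -/
def body (j : ℕ) (tr : Tr) : CW :=
  (0 :: j :: tr.1, false) :: (tr.2.2.map (fun p => (1 :: p.1, p.2)) ++
    [(0 :: (j + 1) :: tr.2.1, true)])

/-- The transitions of layer `j`. -/
def lay (B : Aut) (j : ℕ) : List Tr := (B[j]?).getD []

/-- All transitions with the numbers of their layers. -/
def items (B : Aut) : List (ℕ × Tr) :=
  (List.range B.length).flatMap fun j => (lay B j).map fun tr => (j, tr)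

lemma mem_items {B : Aut} {x : ℕ × Tr} : x ∈ items B ↔ x.1 < B.length ∧ x.2 ∈ lay B x.1 := by
  unfold items
  simp only [List.mem_flatMap, List.mem_range, List.mem_map]
  constructor
  · rintro ⟨j, hj, tr, htr, rfl⟩; exact ⟨hj, htr⟩
  · rintro ⟨h1, h2⟩; exact ⟨x.1, h1, x.2, h2, rfl⟩

lemma eq_flatMap_lay (B : Aut) : B = (List.range B.length).flatMap fun j => [lay B j] := by
  have h : ∀ l : List ℕ, (l.flatMap fun j => [lay B j]) = l.map (lay B) := by
    intro l
    induction l with
    | nil => rfl
    | cons x l ih => rw [List.flatMap_cons, ih]; rfl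
  rw [h]
  apply List.ext_getElem
  · simp
  · intro i h1 h2
    simp [lay, List.getElem?_eq_getElem h1]

/-- Paths as functions. -/
lemma acc_iff_fn {B : Aut} {q x : List ℕ} {w : CW} : Acc B q x w ↔
    ∃ (s : ℕ → List ℕ) (v : ℕ → CW), s 0 = q ∧ s B.length = x ∧
      (∀ j < B.length, (s j, s (j + 1), v j) ∈ lay B j) ∧
      w = (List.range B.length).flatMap v := by
  have h := acc_flatMap (F := fun j => [lay B j]) (n := B.length) (q := q) (x := x) (w := w)
  rw [← eq_flatMap_lay] at h
  simpa only [acc_singleton] using h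

lemma cnt_map_one (x : List ℕ) (w : CW) :
    cnt (1 :: x) (w.map (fun p => (1 :: p.1, p.2))) = cnt x w := by
  induction w with
  | nil => rfl
  | cons p w ih =>
    rw [List.map_cons, cnt_cons, cnt_cons, ih]
    simp

lemma cnt_map_zero (x : List ℕ) (w : CW) :
    cnt (0 :: x) (w.map (fun p => (1 :: p.1, p.2))) = 0 := by
  induction w with
  | nil => rfl
  | cons p w ih =>
    rw [List.map_cons, cnt_cons, ih]
    simp

lemma cnt_body_one (x : List ℕ) (j : ℕ) (tr : Tr) :
    cnt (1 :: x) (body j tr) = cnt x tr.2.2 := by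
  unfold body
  rw [cnt_cons, cnt_append, cnt_map_one, cnt_cons, cnt_nil]
  simp

lemma cnt_body_zero (j₀ : ℕ) (q₀ : List ℕ) (j : ℕ) (tr : Tr) :
    cnt (0 :: j₀ :: q₀) (body j tr) = (if j = j₀ ∧ tr.1 = q₀ then -1 else 0) +
      (if j + 1 = j₀ ∧ tr.2.1 = q₀ then 1 else 0) := by
  unfold body
  rw [cnt_cons, cnt_append, cnt_map_zero, cnt_cons, cnt_nil]
  simp

/-- **Analysis of a selection.** -/
theorem acc_of_sel {k : ℕ} (hk : k ≠ 1) {B : Aut} (js : ℕ → ℕ) (trs : ℕ → Tr)
    (h1 : ∀ s < B.length, js s < B.length ∧ trs s ∈ lay B (js s))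
    (hc : ∀ (x : List ℕ) (e : ℕ), (k : ℤ) ∣
      (∑ s ∈ Finset.range B.length, if s + B.length - js s = e then
        cnt x (body (js s) (trs s)) else 0) +
      (if x = [0, 0, 0] ∧ e = B.length then 1 else 0) -
      (if x = [0, B.length, 0] ∧ e = B.length then 1 else 0)) :
    ∃ w, Acc B [0] [0] w ∧ Bal k w := by
  set J := B.length with hJ
  have hk1 : ¬ (k : ℤ) ∣ 1 := by
    intro h
    have : (k : ℤ) ∣ ((1 : ℕ) : ℤ) := by simpa using h
    rw [Int.natCast_dvd_natCast, Nat.dvd_one] at this
    exact hk this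
  have hA : ∀ s₀ < J, (s₀ = 0 ∧ js s₀ = 0 ∧ (trs s₀).1 = [0]) ∨
      ∃ s₁, s₁ + 1 = s₀ ∧ js s₁ + 1 = js s₀ ∧ (trs s₁).2.1 = (trs s₀).1 := by
    intro s₀ hs₀
    by_contra hcon
    push Not at hcon
    obtain ⟨hn1, hn2⟩ := hcon
    have h2 := hc (0 :: js s₀ :: (trs s₀).1) (s₀ + J - js s₀)
    rw [Finset.sum_eq_single_of_mem s₀ (Finset.mem_range.2 hs₀), if_pos rfl, cnt_body_zero,
      if_pos ⟨rfl, rfl⟩, if_neg (by omega), if_neg, if_neg] at h2
    · apply hk1
      have : (k : ℤ) ∣ -1 := by simpa using h2
      simpa using this.neg_right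
    · rintro ⟨h3, -⟩
      have h4 := (h1 s₀ hs₀).1
      simp only [List.cons.injEq, true_and] at h3
      omega
    · rintro ⟨h3, h4⟩
      have h5 := (h1 s₀ hs₀).1
      simp only [List.cons.injEq, true_and] at h3
      exact hn1 (by omega) h3.1 h3.2
    · intro s hs hne
      have h5 := (h1 s (Finset.mem_range.1 hs)).1
      have h6 := (h1 s₀ hs₀).1
      by_cases he : s + J - js s = s₀ + J - js s₀
      · rw [if_pos he, cnt_body_zero, if_neg, if_neg, add_zero]
        · rintro ⟨h3, h4⟩
          exact hn2 s (by omega) h3 h4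
        · rintro ⟨h3, h4⟩
          exact hne (by omega)
      · rw [if_neg he]
  have hB : ∀ s < J, js s = s := by
    intro s
    induction s with
    | zero =>
      intro hs
      rcases hA 0 hs with h2 | ⟨s₁, h2, -⟩
      · exact h2.2.1
      · omega
    | succ s ih =>
      intro hs
      rcases hA (s + 1) hs with h2 | ⟨s₁, h2, h3, -⟩
      · omega
      · have h4 := ih (by omega)
        have : s₁ = s := by omega
        subst this
        omega
  have hsrc : ∀ s, s + 1 < J → (trs s).2.1 = (trs (s + 1)).1 := by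
    intro s hs
    rcases hA (s + 1) hs with h2 | ⟨s₁, h2, -, h3⟩
    · omega
    · have : s₁ = s := by omega
      subst this
      exact h3
  have hlast : ∀ s, s + 1 = J → (trs s).2.1 = [0] := by
    intro s hs
    by_contra hcon
    have h2 := hc (0 :: J :: (trs s).2.1) J
    rw [Finset.sum_eq_single_of_mem s (Finset.mem_range.2 (by omega)),
      if_pos (by rw [hB s (by omega)]; omega), cnt_body_zero, hB s (by omega),
      if_neg (by omega), if_pos ⟨by omega, rfl⟩, if_neg, if_neg] at h2
    · apply hk1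
      simpa using h2
    · rintro ⟨h3, -⟩
      simp only [List.cons.injEq, true_and] at h3
      exact hcon h3
    · rintro ⟨h3, -⟩
      simp only [List.cons.injEq, true_and] at h3
      omega
    · intro s' hs' hne
      have hs'' := Finset.mem_range.1 hs'
      rw [if_pos (by rw [hB s' hs'']; omega), cnt_body_zero, hB s' hs'', if_neg (by omega),
        if_neg (by omega), add_zero]
  refine ⟨(List.range J).flatMap fun s => (trs s).2.2, acc_iff_fn.2
    ⟨fun j => if j < J then (trs j).1 else [0], fun s => (trs s).2.2, ?_, by simp [hJ],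
      fun j hj => ?_, rfl⟩, fun x => ?_⟩
  · rcases Nat.eq_zero_or_pos J with h0 | h0
    · simp [h0]
    · simp only [h0, if_true]
      rcases hA 0 h0 with h2 | ⟨s₁, h2, -⟩
      · exact h2.2.2
      · omega
  · have h2 := (h1 j hj).2
    rw [hB j hj] at h2
    have h3 : ((if j < J then (trs j).1 else [0]), (if j + 1 < J then (trs (j + 1)).1 else [0]),
        (trs j).2.2) = trs j := by
      rw [if_pos hj]
      split_ifs with h4
      · rw [← hsrc j h4]
      · rw [← hlast j (by omega)]
    show ((if j < J then (trs j).1 else [0]), (if j + 1 < J then (trs (j + 1)).1 else [0]),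
        (trs j).2.2) ∈ _
    rw [h3]
    exact h2
  · have h2 := hc (1 :: x) J
    rw [if_neg (by simp), if_neg (by simp)] at h2
    rw [cnt_flatMap]
    have h3 : ∑ s ∈ Finset.range J, (if s + J - js s = J then
        cnt (1 :: x) (body (js s) (trs s)) else 0) = ∑ s ∈ Finset.range J, cnt x (trs s).2.2 := by
      refine Finset.sum_congr rfl fun s hs => ?_
      have hs' := Finset.mem_range.1 hs
      rw [if_pos (by rw [hB s hs']; omega), cnt_body_one]
    rw [h3] at h2
    simpa using h2

/-- Sublists of a concatenation. -/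
lemma map_sublist_flatMap {α β : Type*} (l : List α) {f : α → β} {g : α → List β}
    (h : ∀ x ∈ l, f x ∈ g x) : (l.map f).Sublist (l.flatMap g) := by
  induction l with
  | nil => simp
  | cons x l ih =>
    rw [List.map_cons, List.flatMap_cons]
    have h1 : [f x].Sublist (g x) := List.singleton_sublist.2 (h x List.mem_cons_self)
    exact h1.append (ih fun y hy => h y (List.mem_cons_of_mem _ hy))

end Pool.Agent.Helper84.SG
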